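import Mathlib

/-!
# Integrals of homogeneous functions against `exp (-M)` for a positively homogeneous `M`
-/

open MeasureTheory Set
open scoped ENNReal Pointwise

namespace Pool.Agent.Lib.Helper13.Ehrhart

theorem ofReal_exp_neg_eq (a : ℝ) :
    ENNReal.ofReal (Real.exp (-a)) = ∫⁻ r in Ioi a, ENNReal.ofReal (Real.exp (-r)) := by
  rw [← integral_exp_neg_Ioi a,
    ofReal_integral_eq_lintegral_ofReal (integrableOn_exp_neg_Ioi a)
      (Filter.Eventually.of_forall fun x => (Real.exp_pos _).le)]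

theorem lintegral_exp_pow (k : ℕ) :
    ∫⁻ r in Ioi (0 : ℝ), ENNReal.ofReal (Real.exp (-r)) * ENNReal.ofReal (r ^ k)
      = (k.factorial : ℝ≥0∞) := by
  have h1 : Real.Gamma ((k : ℝ) + 1) = ∫ x in Ioi (0 : ℝ), Real.exp (-x) * x ^ ((k : ℝ) + 1 - 1) :=
    Real.Gamma_eq_integral (by positivity)
  rw [Real.Gamma_nat_eq_factorial] at h1
  have hc : IntegrableOn (fun x : ℝ => Real.exp (-x) * x ^ ((k : ℝ) + 1 - 1)) (Ioi 0) :=
    Real.GammaIntegral_convergent (by positivity)
  have h2 : (k.factorial : ℝ≥0∞) = ENNReal.ofReal (k.factorial : ℝ) := by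
    rw [ENNReal.ofReal_natCast]
  rw [h2, h1, ofReal_integral_eq_lintegral_ofReal hc]
  · refine setLIntegral_congr_fun measurableSet_Ioi fun x hx => ?_
    have hx0 : (0 : ℝ) < x := hx
    rw [← ENNReal.ofReal_mul (Real.exp_pos _).le, add_sub_cancel_right, Real.rpow_natCast]
  · refine (ae_restrict_iff' measurableSet_Ioi).2 (Filter.Eventually.of_forall fun x hx => ?_)
    have hx0 : (0 : ℝ) < x := hx
    simp only [Pi.zero_apply]
    positivity

/-- The exponential trick. -/
theorem lintegral_mul_exp {X : Type*} [MeasurableSpace X] {μ : Measure X} [SFinite μ]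
    {M : X → ℝ} (hM : Measurable M) (hM0 : ∀ x, 0 ≤ M x) {φ : X → ℝ≥0∞} (hφ : Measurable φ)
    (k : ℕ) (c : ℝ≥0∞)
    (h : ∀ r : ℝ, 0 < r → ∫⁻ x in {x | M x < r}, φ x ∂μ = ENNReal.ofReal (r ^ k) * c) :
    ∫⁻ x, φ x * ENNReal.ofReal (Real.exp (-M x)) ∂μ = (k.factorial : ℝ≥0∞) * c := by
  have e1 : ∀ x, φ x * ENNReal.ofReal (Real.exp (-M x))
      = ∫⁻ r : ℝ, (Ioi (0 : ℝ)).indicator (fun r => ENNReal.ofReal (Real.exp (-r)) *
          ({x | M x < r} : Set X).indicator φ x) r := by
    intro x
    rw [ofReal_exp_neg_eq, ← lintegral_const_mul _ (by fun_prop), ← lintegral_indicator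
      measurableSet_Ioi]
    refine lintegral_congr fun r => ?_
    by_cases hr : M x < r
    · have h0 : (0 : ℝ) < r := lt_of_le_of_lt (hM0 x) hr
      rw [indicator_of_mem (show r ∈ Ioi (M x) from hr), indicator_of_mem (show r ∈ Ioi (0:ℝ) from h0),
        indicator_of_mem (show x ∈ {x | M x < r} from hr), mul_comm]
    · rw [indicator_of_notMem (show r ∉ Ioi (M x) from hr)]
      by_cases h0 : (0 : ℝ) < r
      · rw [indicator_of_mem (show r ∈ Ioi (0:ℝ) from h0),
          indicator_of_notMem (show x ∉ {x | M x < r} from hr), mul_zero]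
      · rw [indicator_of_notMem (show r ∉ Ioi (0:ℝ) from h0)]
  simp_rw [e1]
  have hset : MeasurableSet {p : X × ℝ | M p.1 < p.2} :=
    measurableSet_lt (hM.comp measurable_fst) measurable_snd
  rw [lintegral_lintegral_swap]
  · have e2 : ∀ r : ℝ, ∫⁻ x, (Ioi (0 : ℝ)).indicator (fun r => ENNReal.ofReal (Real.exp (-r)) *
          ({x | M x < r} : Set X).indicator φ x) r ∂μ
        = (Ioi (0 : ℝ)).indicator (fun r => ENNReal.ofReal (Real.exp (-r)) *
            (ENNReal.ofReal (r ^ k) * c)) r := by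
      intro r
      by_cases h0 : (0 : ℝ) < r
      · simp only [indicator_of_mem (show r ∈ Ioi (0:ℝ) from h0)]
        rw [lintegral_const_mul, lintegral_indicator (measurableSet_lt hM measurable_const), h r h0]
        exact hφ.indicator (measurableSet_lt hM measurable_const)
      · simp only [indicator_of_notMem (show r ∉ Ioi (0:ℝ) from h0), lintegral_zero]
    simp_rw [e2]
    rw [lintegral_indicator measurableSet_Ioi]
    simp_rw [← mul_assoc]
    rw [lintegral_mul_const _ (by fun_prop), lintegral_exp_pow]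
  · have : (Function.uncurry fun (x : X) (r : ℝ) => (Ioi (0 : ℝ)).indicator
        (fun r => ENNReal.ofReal (Real.exp (-r)) * ({x | M x < r} : Set X).indicator φ x) r)
        = ({p : X × ℝ | 0 < p.2} ∩ {p : X × ℝ | M p.1 < p.2}).indicator
          (fun p => ENNReal.ofReal (Real.exp (-p.2)) * φ p.1) := by
      funext ⟨x, r⟩
      simp only [Function.uncurry_apply_pair]
      by_cases h0 : (0 : ℝ) < r
      · by_cases hr : M x < r
        · rw [indicator_of_mem (show r ∈ Ioi (0:ℝ) from h0),
            indicator_of_mem (show x ∈ {x | M x < r} from hr),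
            indicator_of_mem (show (x, r) ∈ ({p : X × ℝ | 0 < p.2} ∩ {p : X × ℝ | M p.1 < p.2}) from
              ⟨h0, hr⟩)]
        · rw [indicator_of_mem (show r ∈ Ioi (0:ℝ) from h0),
            indicator_of_notMem (show x ∉ {x | M x < r} from hr), mul_zero,
            indicator_of_notMem (fun hh => hr hh.2)]
      · rw [indicator_of_notMem (show r ∉ Ioi (0:ℝ) from h0),
          indicator_of_notMem (fun hh => h0 hh.1)]
    rw [this]
    refine Measurable.aemeasurable (Measurable.indicator ?_ ?_)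
    · exact (by fun_prop : Measurable fun p : X × ℝ => ENNReal.ofReal (Real.exp (-p.2))).mul
        (hφ.comp measurable_fst)
    · exact (measurableSet_lt measurable_const measurable_snd).inter hset

/-- Scaling of integrals over the sublevel sets of a homogeneous function. -/
theorem setLIntegral_lt_scale {X : Type*} [NormedAddCommGroup X] [NormedSpace ℝ X]
    [MeasurableSpace X] [BorelSpace X] [FiniteDimensional ℝ X] (μ : Measure X)
    [μ.IsAddHaarMeasure] {M : X → ℝ} (hM : Measurable M)
    (hMh : ∀ r : ℝ, 0 < r → ∀ x, M (r • x) = r * M x)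
    {φ : X → ℝ≥0∞} (hφ : Measurable φ) (k : ℕ)
    (hφh : ∀ r : ℝ, 0 < r → ∀ x, φ (r • x) = ENNReal.ofReal (r ^ k) * φ x) (r : ℝ) (hr : 0 < r) :
    ∫⁻ x in {x | M x < r}, φ x ∂μ
      = ENNReal.ofReal (r ^ (k + Module.finrank ℝ X)) * ∫⁻ x in {x | M x < 1}, φ x ∂μ := by
  have hmeas : ∀ s : ℝ, MeasurableSet {x | M x < s} := fun s => measurableSet_lt hM measurable_const
  have h1 := Measure.map_addHaar_smul μ hr.ne'
  have h2 : ∫⁻ x, ({x | M x < r} : Set X).indicator φ x ∂(Measure.map (r • ·) μ)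
      = ∫⁻ x, ({x | M x < r} : Set X).indicator φ (r • x) ∂μ :=
    lintegral_map (hφ.indicator (hmeas r)) (by fun_prop)
  rw [h1, lintegral_smul_measure] at h2
  have h3 : ∀ x, ({x | M x < r} : Set X).indicator φ (r • x)
      = ENNReal.ofReal (r ^ k) * ({x | M x < 1} : Set X).indicator φ x := by
    intro x
    by_cases hx : M x < 1
    · have : M (r • x) < r := by rw [hMh r hr]; nlinarith
      rw [indicator_of_mem (show (r • x) ∈ {x | M x < r} from this),
        indicator_of_mem (show x ∈ {x | M x < 1} from hx), hφh r hr]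
    · have : ¬ M (r • x) < r := by rw [hMh r hr]; rw [not_lt] at hx ⊢; nlinarith
      rw [indicator_of_notMem (show (r • x) ∉ {x | M x < r} from this),
        indicator_of_notMem (show x ∉ {x | M x < 1} from hx), mul_zero]
  simp_rw [h3] at h2
  rw [lintegral_const_mul _ (hφ.indicator (hmeas 1)), lintegral_indicator (hmeas r),
    lintegral_indicator (hmeas 1)] at h2
  have h4 : |(r ^ Module.finrank ℝ X)⁻¹| = (r ^ Module.finrank ℝ X)⁻¹ := abs_of_pos (by positivity)
  rw [h4, smul_eq_mul] at h2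
  have h5 : ENNReal.ofReal (r ^ Module.finrank ℝ X) * ENNReal.ofReal ((r ^ Module.finrank ℝ X)⁻¹)
      = 1 := by
    rw [← ENNReal.ofReal_mul (by positivity), mul_inv_cancel₀ (by positivity), ENNReal.ofReal_one]
  calc ∫⁻ x in {x | M x < r}, φ x ∂μ
      = (ENNReal.ofReal (r ^ Module.finrank ℝ X) * ENNReal.ofReal ((r ^ Module.finrank ℝ X)⁻¹)) *
          ∫⁻ x in {x | M x < r}, φ x ∂μ := by rw [h5, one_mul]
    _ = ENNReal.ofReal (r ^ Module.finrank ℝ X) * (ENNReal.ofReal (r ^ k) *
          ∫⁻ x in {x | M x < 1}, φ x ∂μ) := by rw [mul_assoc, h2]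
    _ = _ := by
        rw [← mul_assoc, ← ENNReal.ofReal_mul (by positivity), pow_add, mul_comm (r ^ k)]

end Pool.Agent.Lib.Helper13.Ehrhart
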