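import Mathlib

/-!
# A log-concave function on an open convex set lies below an exponential of a linear functional
-/

open MeasureTheory Set
open scoped ENNReal Pointwise

namespace Pool.Agent.Lib.Helper13.Ehrhart

/-- A concave function on an open convex set of a finite-dimensional space has a supergradient at
every point. -/
theorem exists_supergradient {E : Type*} [NormedAddCommGroup E] [NormedSpace ℝ E]
    [FiniteDimensional ℝ E] {D : Set E} (hD : IsOpen D) {f : E → ℝ} (hf : ConcaveOn ℝ D f)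
    {x₀ : E} (hx₀ : x₀ ∈ D) : ∃ l : E →L[ℝ] ℝ, ∀ x ∈ D, f x ≤ f x₀ + l (x - x₀) := by
  have hcont : ContinuousOn f D := hf.continuousOn hD
  let A : Set (E × ℝ) := {p | p.1 ∈ D ∧ p.2 < f p.1}
  have hAo : IsOpen A := by
    have h1 : A = (D ×ˢ univ) ∩ {p : E × ℝ | p.2 < f p.1} := by
      ext p; simp [A]
    have hc2 : ContinuousOn (fun p : E × ℝ => f p.1 - p.2) (D ×ˢ univ) := by
      refine ContinuousOn.sub ?_ continuous_snd.continuousOn
      exact hcont.comp continuous_fst.continuousOn fun p hp => hp.1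
    have h2 := hc2.isOpen_inter_preimage (hD.prod isOpen_univ) isOpen_Ioi (t := Ioi (0 : ℝ))
    rw [h1]
    convert h2 using 2
    ext p
    simp
  have hAc : Convex ℝ A := by
    rintro ⟨x, s⟩ ⟨hx, hs⟩ ⟨y, t⟩ ⟨hy, ht⟩ a b ha hb hab
    refine ⟨hf.1 hx hy ha hb hab, ?_⟩
    have h3 := hf.2 hx hy ha hb hab
    simp only [smul_eq_mul] at h3
    show a • s + b • t < f (a • x + b • y)
    simp only [smul_eq_mul]
    simp only at hs ht
    rcases eq_or_lt_of_le ha with h0 | h0
    · have hb1 : b = 1 := by linarith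
      subst hb1
      rw [← h0] at h3 ⊢
      linarith
    · nlinarith [mul_lt_mul_of_pos_left hs h0, mul_le_mul_of_nonneg_left ht.le hb]
  have hnot : ((x₀, f x₀) : E × ℝ) ∉ A := fun h => lt_irrefl _ h.2
  obtain ⟨g, hg⟩ := geometric_hahn_banach_open_point hAc hAo hnot
  -- g (x, t) = u x + c t
  set c : ℝ := g (0, 1) with hc
  have hdec : ∀ x t, g (x, t) = g (x, 0) + t * c := by
    intro x t
    have : ((x, t) : E × ℝ) = (x, 0) + t • ((0 : E), (1 : ℝ)) := by
      ext <;> simp
    rw [this, map_add, map_smul, smul_eq_mul]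
  have hcpos : 0 < c := by
    have h1 : ((x₀, f x₀ - 1) : E × ℝ) ∈ A := ⟨hx₀, by simp⟩
    have h2 := hg _ h1
    rw [hdec x₀ (f x₀ - 1), hdec x₀ (f x₀)] at h2
    nlinarith
  refine ⟨-(c⁻¹ • (g.comp (ContinuousLinearMap.inl ℝ E ℝ))), fun x hx => ?_⟩
  have hle : g (x, 0) + f x * c ≤ g (x₀, 0) + f x₀ * c := by
    refine le_of_forall_pos_lt_add fun ε hε => ?_
    have h1 : ((x, f x - ε / c) : E × ℝ) ∈ A := ⟨hx, by
      have : 0 < ε / c := by positivity
      simp only; linarith⟩
    have h2 := hg _ h1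
    rw [hdec x (f x - ε / c), hdec x₀ (f x₀)] at h2
    have h3 : (f x - ε / c) * c = f x * c - ε := by field_simp
    linarith
  simp only [ContinuousLinearMap.neg_apply, ContinuousLinearMap.smul_apply,
    ContinuousLinearMap.comp_apply, ContinuousLinearMap.inl_apply, smul_eq_mul]
  have hsub : g (x - x₀, 0) = g (x, 0) - g (x₀, 0) := by
    rw [← map_sub]; congr 1; simp
  rw [hsub]
  have h4 : c⁻¹ * (g (x, 0) - g (x₀, 0)) ≤ c⁻¹ * ((f x₀ - f x) * c) :=
    mul_le_mul_of_nonneg_left (by nlinarith) (by positivity)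
  have h5 : c⁻¹ * ((f x₀ - f x) * c) = f x₀ - f x := by field_simp
  linarith

end Pool.Agent.Lib.Helper13.Ehrhart
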