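import Mathlib
import Pool.Agent.Lib.H31.BrunnMinkowski
import Pool.Agent.Lib.Helper13.Ehrhart.Expo
import Pool.Agent.Lib.Helper13.Ehrhart.Grad

/-!
# The symmetric set `{N x + N (-x) < 1}` of a convex body with centroid at the origin
-/

open MeasureTheory Set
open scoped ENNReal Pointwise Topology

namespace Pool.Agent.Lib.Helper13.Ehrhart

variable {n : ℕ} {K : Set (Fin n → ℝ)}

theorem gauge_hom (r : ℝ) (hr : 0 < r) (x : Fin n → ℝ) : gauge K (r • x) = r * gauge K x := by
  rw [gauge_smul_of_nonneg hr.le, smul_eq_mul]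

theorem gauge_cont (hc : Convex ℝ K) (h0 : K ∈ 𝓝 (0 : Fin n → ℝ)) : Continuous (gauge K) :=
  continuous_gauge hc h0

theorem volume_gauge_lt (hc : Convex ℝ K) (h0 : K ∈ 𝓝 (0 : Fin n → ℝ)) :
    volume {x | gauge K x < 1} = volume K := by
  have h1 : {x | gauge K x < 1} = interior K := setOfPred_gauge_lt_one_eq_interior hc h0
  rw [h1]
  exact measure_interior_of_null_frontier (hc.addHaar_frontier volume)

/-- The set `{(x, y) | N x + N y < 1}`. -/
def W (K : Set (Fin n → ℝ)) : Set ((Fin n → ℝ) × (Fin n → ℝ)) :=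
  {p | gauge K p.1 + gauge K p.2 < 1}

theorem measurableSet_W (hc : Convex ℝ K) (h0 : K ∈ 𝓝 (0 : Fin n → ℝ)) : MeasurableSet (W K) := by
  have h := gauge_cont hc h0
  exact measurableSet_lt (by fun_prop) measurable_const

theorem finrank_prod : Module.finrank ℝ ((Fin n → ℝ) × (Fin n → ℝ)) = 2 * n := by
  rw [Module.finrank_prod, Module.finrank_fin_fun]; ring

theorem haarProd (n : ℕ) : ((volume : Measure (Fin n → ℝ)).prod
    (volume : Measure (Fin n → ℝ))).IsAddHaarMeasure :=
  Measure.prod.instIsAddHaarMeasure _ _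

/-- The two-fold exponential trick. -/
theorem lintegral_W (hc : Convex ℝ K) (h0 : K ∈ 𝓝 (0 : Fin n → ℝ)) {φ : (Fin n → ℝ) → ℝ≥0∞}
    (hφ : Measurable φ) (k : ℕ)
    (hφh : ∀ r : ℝ, 0 < r → ∀ x, φ (r • x) = ENNReal.ofReal (r ^ k) * φ x) :
    ((k + 2 * n).factorial : ℝ≥0∞) * ∫⁻ p in W K, φ p.1 ∂(volume.prod volume)
      = (((k + n).factorial : ℝ≥0∞) * ∫⁻ x in {x | gauge K x < 1}, φ x) *
        ((n.factorial : ℝ≥0∞) * volume {x | gauge K x < 1}) := by
  have hcont := gauge_cont hc h0
  have := haarProd n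
  have hM : Measurable (fun p : (Fin n → ℝ) × (Fin n → ℝ) => gauge K p.1 + gauge K p.2) := by
    fun_prop
  have e1 := lintegral_mul_exp
    (μ := ((volume : Measure (Fin n → ℝ)).prod (volume : Measure (Fin n → ℝ)))) hM
    (fun p => add_nonneg (gauge_nonneg _) (gauge_nonneg _)) (φ := fun p => φ p.1)
    (hφ.comp measurable_fst) (k + 2 * n) (∫⁻ p in W K, φ p.1 ∂(volume.prod volume)) (by
      intro r hr
      have h := setLIntegral_lt_scale
        ((volume : Measure (Fin n → ℝ)).prod (volume : Measure (Fin n → ℝ))) hM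
        (fun r hr x => by
          show gauge K (r • x.1) + gauge K (r • x.2) = _
          rw [gauge_hom r hr, gauge_hom r hr]; ring)
        (φ := fun p => φ p.1) (hφ.comp measurable_fst) k (fun r hr x => hφh r hr x.1) r hr
      rw [finrank_prod] at h
      exact h)
  have e2 := lintegral_mul_exp (μ := (volume : Measure (Fin n → ℝ))) hcont.measurable
    (fun x => gauge_nonneg x) hφ (k + n) (∫⁻ x in {x | gauge K x < 1}, φ x) (by
      intro r hr
      have h := setLIntegral_lt_scale (volume : Measure (Fin n → ℝ)) hcont.measurable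
        (fun r hr x => gauge_hom r hr x) hφ k hφh r hr
      rw [Module.finrank_fin_fun] at h
      exact h)
  have e3 := lintegral_mul_exp (μ := (volume : Measure (Fin n → ℝ))) hcont.measurable
    (fun x => gauge_nonneg x) (φ := fun _ => 1) measurable_const n
    (volume {x | gauge K x < 1}) (by
      intro r hr
      have h := setLIntegral_lt_scale (volume : Measure (Fin n → ℝ)) hcont.measurable
        (fun r hr x => gauge_hom r hr x) (φ := fun _ => 1) measurable_const 0
        (fun r hr x => by simp) r hr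
      rw [Module.finrank_fin_fun, zero_add] at h
      simpa using h)
  rw [← e1, ← e2, ← e3]
  rw [lintegral_prod]
  · have e4 : ∀ x y : Fin n → ℝ, φ x * ENNReal.ofReal (Real.exp (-(gauge K x + gauge K y)))
        = (φ x * ENNReal.ofReal (Real.exp (-gauge K x))) *
          (1 * ENNReal.ofReal (Real.exp (-gauge K y))) := by
      intro x y
      rw [neg_add, Real.exp_add, ENNReal.ofReal_mul (Real.exp_pos _).le]
      ring
    simp_rw [e4]
    have hm1 : Measurable fun y : Fin n → ℝ => (1 : ℝ≥0∞) * ENNReal.ofReal (Real.exp (-gauge K y)) := by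
      fun_prop
    have hm2 : Measurable fun x : Fin n → ℝ => φ x * ENNReal.ofReal (Real.exp (-gauge K x)) := by
      fun_prop
    simp_rw [lintegral_const_mul _ hm1]
    rw [lintegral_mul_const _ hm2]
  · exact Measurable.aemeasurable (by fun_prop)

theorem factorial_ne_zero' (m : ℕ) : ((m.factorial : ℕ) : ℝ≥0∞) ≠ 0 := by
  exact_mod_cast m.factorial_ne_zero

theorem volume_W (hc : Convex ℝ K) (h0 : K ∈ 𝓝 (0 : Fin n → ℝ)) :
    ((2 * n).factorial : ℝ≥0∞) * (volume.prod volume) (W K)
      = ((n.factorial : ℝ≥0∞) * volume K) * ((n.factorial : ℝ≥0∞) * volume K) := by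
  have h := lintegral_W hc h0 (φ := fun _ => 1) measurable_const 0 (fun r hr x => by simp)
  simp only [lintegral_const, one_mul, Measure.restrict_apply MeasurableSet.univ, univ_inter,
    zero_add] at h
  rw [volume_gauge_lt hc h0] at h
  exact h

end Pool.Agent.Lib.Helper13.Ehrhart
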