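import Mathlib
import Pool.Agent.Lib.H31.BrunnMinkowski

/-!
# Prékopa–Leindler and Brunn–Minkowski on `ℝ × (Fin n → ℝ)`
-/

open MeasureTheory Set
open scoped ENNReal Pointwise

namespace Pool.Agent.Lib.Helper13.Ehrhart

/-- Prékopa–Leindler on `ℝ × (Fin n → ℝ)`. -/
theorem pl_prod (n : ℕ) {f g h : ℝ × (Fin n → ℝ) → ℝ≥0∞} (hf : Measurable f)
    (hg : Measurable g) (hh : Measurable h) {a b : ℝ} (ha : 0 < a) (hb : 0 < b) (hab : a + b = 1)
    (hle : ∀ x y, f x ^ a * g y ^ b ≤ h (a • x + b • y)) :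
    (∫⁻ x, f x) ^ a * (∫⁻ x, g x) ^ b ≤ ∫⁻ x, h x := by
  have e := volume_preserving_piFinSuccAbove (fun _ : Fin (n + 1) => ℝ) 0
  have hsplit : ∀ u : ℝ × (Fin n → ℝ) → ℝ≥0∞,
      ∫⁻ x, u x = ∫⁻ y, u ((MeasurableEquiv.piFinSuccAbove (fun _ : Fin (n + 1) => ℝ) 0) y) := by
    intro u
    rw [e.lintegral_comp_emb (MeasurableEquiv.measurableEmbedding _) u]
  rw [hsplit f, hsplit g, hsplit h]
  refine Pool.Agent.Lib.H31.prekopa_leindler (n + 1) (hf.comp (MeasurableEquiv.measurable _))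
    (hg.comp (MeasurableEquiv.measurable _)) (hh.comp (MeasurableEquiv.measurable _)) ha hb hab ?_
  intro x y
  refine (hle _ _).trans (le_of_eq ?_)
  congr 1

/-- Multiplicative Brunn–Minkowski on `ℝ × (Fin n → ℝ)`. -/
theorem bm_prod (n : ℕ) {A B C : Set (ℝ × (Fin n → ℝ))} (hA : MeasurableSet A)
    (hB : MeasurableSet B) (hC : MeasurableSet C) {a b : ℝ} (ha : 0 < a) (hb : 0 < b)
    (hab : a + b = 1) (hle : ∀ x ∈ A, ∀ y ∈ B, a • x + b • y ∈ C) :
    (volume A) ^ a * (volume B) ^ b ≤ volume C := by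
  have h := pl_prod n (f := A.indicator 1) (g := B.indicator 1) (h := C.indicator 1)
    (measurable_one.indicator hA) (measurable_one.indicator hB) (measurable_one.indicator hC)
    ha hb hab (by
      intro x y
      by_cases hx : x ∈ A
      · by_cases hy : y ∈ B
        · rw [indicator_of_mem hx, indicator_of_mem hy, indicator_of_mem (hle x hx y hy)]
          simp
        · rw [indicator_of_notMem hy, ENNReal.zero_rpow_of_pos hb, mul_zero]
          exact bot_le
      · rw [indicator_of_notMem hx, ENNReal.zero_rpow_of_pos ha, zero_mul]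
        exact bot_le)
  rwa [lintegral_indicator_one hA, lintegral_indicator_one hB, lintegral_indicator_one hC] at h

end Pool.Agent.Lib.Helper13.Ehrhart
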