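import Mathlib
import Pool.Agent.Lib.Helper13.Ehrhart.ConePL

/-!
# The energy inequality `(∫ F)² ∫ F² ≤ 2ᴺ ∫ (F ∗ F)²` for log-concave `F` on `ℝᴺ`
-/

open MeasureTheory Set
open scoped ENNReal Pointwise

namespace Pool.Agent.Lib.Helper13.Ehrhart

instance haarProd' (n : ℕ) : (volume : Measure (ℝ × (Fin n → ℝ))).IsAddHaarMeasure :=
  Measure.prod.instIsAddHaarMeasure _ _

section general

variable {E : Type*} [NormedAddCommGroup E] [NormedSpace ℝ E] [MeasurableSpace E] [BorelSpace E]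
  [FiniteDimensional ℝ E] (μ : Measure E) [μ.IsAddHaarMeasure]

theorem lintegral_sq {u : E → ℝ≥0∞} (hu : Measurable u) :
    (∫⁻ a, u a ∂μ) ^ 2 = ∫⁻ a, ∫⁻ b, u a * u b ∂μ ∂μ := by
  have h1 : ∀ a, ∫⁻ b, u a * u b ∂μ = u a * ∫⁻ b, u b ∂μ := fun a => lintegral_const_mul _ hu
  simp_rw [h1]
  rw [lintegral_mul_const _ hu, sq]

/-- `∫ (autocorrelation)² = ∫ (self-convolution)²`. -/
theorem energy_eq {F : E → ℝ≥0∞} (hF : Measurable F) :
    ∫⁻ x, (∫⁻ a, F a * F (a + x) ∂μ) ^ 2 ∂μ = ∫⁻ w, (∫⁻ a, F a * F (w - a) ∂μ) ^ 2 ∂μ := by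
  have h1 : ∀ x, (∫⁻ a, F a * F (a + x) ∂μ) ^ 2
      = ∫⁻ a, ∫⁻ b, (F a * F (a + x)) * (F b * F (b + x)) ∂μ ∂μ := fun x =>
    lintegral_sq μ (u := fun a => F a * F (a + x)) (by fun_prop)
  have h2 : ∀ w, (∫⁻ a, F a * F (w - a) ∂μ) ^ 2
      = ∫⁻ a, ∫⁻ b, (F a * F (w - a)) * (F b * F (w - b)) ∂μ ∂μ := fun w =>
    lintegral_sq μ (u := fun a => F a * F (w - a)) (by fun_prop)
  simp_rw [h1, h2]
  -- bring the outer variable inside
  have s1 : ∫⁻ x, ∫⁻ a, ∫⁻ b, (F a * F (a + x)) * (F b * F (b + x)) ∂μ ∂μ ∂μ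
      = ∫⁻ a, ∫⁻ b, ∫⁻ x, (F a * F (a + x)) * (F b * F (b + x)) ∂μ ∂μ ∂μ := by
    rw [lintegral_lintegral_swap]
    · refine lintegral_congr fun a => ?_
      rw [lintegral_lintegral_swap]
      exact Measurable.aemeasurable (by unfold Function.uncurry; fun_prop)
    · refine Measurable.aemeasurable ?_
      have : Measurable fun q : (E × E) × E =>
          (F q.1.2 * F (q.1.2 + q.1.1)) * (F q.2 * F (q.2 + q.1.1)) := by fun_prop
      exact this.lintegral_prod_right'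
  have s2 : ∫⁻ w, ∫⁻ a, ∫⁻ b, (F a * F (w - a)) * (F b * F (w - b)) ∂μ ∂μ ∂μ
      = ∫⁻ a, ∫⁻ b, ∫⁻ w, (F a * F (w - a)) * (F b * F (w - b)) ∂μ ∂μ ∂μ := by
    rw [lintegral_lintegral_swap]
    · refine lintegral_congr fun a => ?_
      rw [lintegral_lintegral_swap]
      exact Measurable.aemeasurable (by unfold Function.uncurry; fun_prop)
    · refine Measurable.aemeasurable ?_
      have : Measurable fun q : (E × E) × E =>
          (F q.1.2 * F (q.1.1 - q.1.2)) * (F q.2 * F (q.1.1 - q.2)) := by fun_prop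
      exact this.lintegral_prod_right'
  rw [s1, s2]
  refine lintegral_congr fun a => lintegral_congr fun b => ?_
  rw [← lintegral_sub_right_eq_self
    (fun x => (F a * F (a + x)) * (F b * F (b + x))) (a + b)]
  refine lintegral_congr fun w => ?_
  have e1 : a + (w - (a + b)) = w - b := by abel
  have e2 : b + (w - (a + b)) = w - a := by abel
  rw [e1, e2]
  ring

theorem autocorr_integral {F : E → ℝ≥0∞} (hF : Measurable F) :
    ∫⁻ x, ∫⁻ a, F a * F (a + x) ∂μ ∂μ = (∫⁻ a, F a ∂μ) ^ 2 := by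
  rw [lintegral_lintegral_swap]
  · have h1 : ∀ a, ∫⁻ x, F a * F (a + x) ∂μ = F a * ∫⁻ x, F x ∂μ := by
      intro a
      rw [lintegral_const_mul _ (by fun_prop), lintegral_add_left_eq_self F a]
    simp_rw [h1]
    rw [lintegral_mul_const _ hF, sq]
  · exact Measurable.aemeasurable (by unfold Function.uncurry; fun_prop)

theorem lintegral_comp_smul' {G : E → ℝ≥0∞} (hG : Measurable G) {r : ℝ} (hr : 0 < r) :
    ∫⁻ x, G (r • x) ∂μ = ENNReal.ofReal ((r ^ Module.finrank ℝ E)⁻¹) * ∫⁻ x, G x ∂μ := by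
  have h1 := Measure.map_addHaar_smul μ hr.ne'
  have h2 : ∫⁻ x, G x ∂(Measure.map (r • ·) μ) = ∫⁻ x, G (r • x) ∂μ :=
    lintegral_map hG (by fun_prop)
  rw [h1, lintegral_smul_measure] at h2
  rw [← h2, abs_of_pos (by positivity), smul_eq_mul]

end general

variable {n : ℕ}

/-- The energy inequality. -/
theorem energy_le {F : ℝ × (Fin n → ℝ) → ℝ≥0∞} (hF : Measurable F)
    (hlc : ∀ x y, F x ^ (1 / 2 : ℝ) * F y ^ (1 / 2 : ℝ) ≤ F ((1 / 2 : ℝ) • x + (1 / 2 : ℝ) • y)) :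
    (∫⁻ a, F a ^ 2) * (∫⁻ a, F a) ^ 2 ≤ 2 ^ (n + 1) * ∫⁻ w, (∫⁻ a, F a * F (w - a)) ^ 2 := by
  let γ : ℝ × (Fin n → ℝ) → ℝ≥0∞ := fun x => ∫⁻ a, F a * F (a + x)
  have hγm : Measurable γ := by
    have : Measurable fun q : (ℝ × (Fin n → ℝ)) × (ℝ × (Fin n → ℝ)) => F q.2 * F (q.2 + q.1) := by
      fun_prop
    exact this.lintegral_prod_right'
  have hγ0 : γ 0 = ∫⁻ a, F a ^ 2 := by
    refine lintegral_congr fun a => ?_
    rw [add_zero, sq]
  have hmid : ∀ x, γ 0 * γ x ≤ γ ((1 / 2 : ℝ) • x) ^ 2 := by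
    intro x
    have h := pl_prod n (f := fun a => F a * F (a + 0)) (g := fun a => F a * F (a + x))
      (h := fun a => F a * F (a + (1 / 2 : ℝ) • x)) (by fun_prop) (by fun_prop) (by fun_prop)
      (a := 1 / 2) (b := 1 / 2) (by norm_num) (by norm_num) (by norm_num) (by
        intro a b
        simp only [add_zero]
        have h1 := hlc a b
        have h2 := hlc a (b + x)
        have e1 : (1 / 2 : ℝ) • a + (1 / 2 : ℝ) • b + (1 / 2 : ℝ) • x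
            = (1 / 2 : ℝ) • a + (1 / 2 : ℝ) • (b + x) := by
          rw [smul_add]; abel
        rw [e1, ENNReal.mul_rpow_of_nonneg _ _ (by norm_num : (0 : ℝ) ≤ 1 / 2),
          ENNReal.mul_rpow_of_nonneg _ _ (by norm_num : (0 : ℝ) ≤ 1 / 2)]
        calc F a ^ (1 / 2 : ℝ) * F a ^ (1 / 2 : ℝ) * (F b ^ (1 / 2 : ℝ) * F (b + x) ^ (1 / 2 : ℝ))
            = (F a ^ (1 / 2 : ℝ) * F b ^ (1 / 2 : ℝ)) *
              (F a ^ (1 / 2 : ℝ) * F (b + x) ^ (1 / 2 : ℝ)) := by ring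
          _ ≤ _ := mul_le_mul' h1 h2)
    have h3 : (∫⁻ a, F a * F (a + 0)) = γ 0 := rfl
    have h4 : (∫⁻ a, F a * F (a + x)) = γ x := rfl
    have h5 : (∫⁻ a, F a * F (a + (1 / 2 : ℝ) • x)) = γ ((1 / 2 : ℝ) • x) := rfl
    rw [h3, h4, h5] at h
    have h6 := pow_le_pow_left' h 2
    rw [mul_pow, ← ENNReal.rpow_natCast (γ 0 ^ (1 / 2 : ℝ)), ← ENNReal.rpow_natCast (γ x ^ (1 / 2 : ℝ)),
      ← ENNReal.rpow_mul, ← ENNReal.rpow_mul] at h6
    norm_num at h6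
    norm_num
    exact h6
  have hfin : Module.finrank ℝ (ℝ × (Fin n → ℝ)) = n + 1 := by
    rw [Module.finrank_prod, Module.finrank_fin_fun, Module.finrank_self]; ring
  have h1 : ∫⁻ x, γ 0 * γ x ≤ ∫⁻ x, γ ((1 / 2 : ℝ) • x) ^ 2 := lintegral_mono hmid
  rw [lintegral_const_mul _ hγm] at h1
  have h2 : ∫⁻ x, γ x = (∫⁻ a, F a) ^ 2 := autocorr_integral volume hF
  have h3 := lintegral_comp_smul' (volume : Measure (ℝ × (Fin n → ℝ))) (G := fun x => γ x ^ 2)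
    (by fun_prop) (r := 1 / 2) (by norm_num)
  have h4 : ∫⁻ x, γ x ^ 2 = ∫⁻ w, (∫⁻ a, F a * F (w - a)) ^ 2 := energy_eq volume hF
  rw [h2, h3, h4, hγ0, hfin] at h1
  have h5 : ENNReal.ofReal (((1 / 2 : ℝ) ^ (n + 1))⁻¹) = 2 ^ (n + 1) := by
    rw [one_div, inv_pow, inv_inv, ENNReal.ofReal_pow (by norm_num)]
    norm_num
  rw [h5] at h1
  exact h1

end Pool.Agent.Lib.Helper13.Ehrhart
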