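import Mathlib
import Pool.Agent.Lib.Helper13.Ehrhart.Energy
import Pool.Agent.Lib.Helper13.Ehrhart.Grad

/-!
# Volumes of order intervals of an open convex cone in `ℝ × (Fin n → ℝ)`
-/

open MeasureTheory Set
open scoped ENNReal Pointwise

namespace Pool.Agent.Lib.Helper13.Ehrhart

variable {n : ℕ}

/-- An open convex cone all of whose order intervals have finite volume. -/
structure IsCone (C : Set (ℝ × (Fin n → ℝ))) : Prop where
  isOpen : IsOpen C
  add_mem : ∀ x ∈ C, ∀ y ∈ C, x + y ∈ C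
  smul_mem : ∀ r : ℝ, 0 < r → ∀ x ∈ C, r • x ∈ C
  finite : ∀ w, volume {y | y ∈ C ∧ w - y ∈ C} < ⊤

/-- The volume of the order interval `C ∩ (w - C)`. -/
noncomputable def V (C : Set (ℝ × (Fin n → ℝ))) (w : ℝ × (Fin n → ℝ)) : ℝ≥0∞ :=
  volume {y | y ∈ C ∧ w - y ∈ C}

variable {C : Set (ℝ × (Fin n → ℝ))}

theorem IsCone.convex (h : IsCone C) : Convex ℝ C := by
  intro x hx y hy a b ha hb hab
  rcases eq_or_lt_of_le ha with h0 | ha'
  · have hb1 : b = 1 := by linarith
    rw [← h0, hb1, zero_smul, one_smul, zero_add]; exact hy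
  rcases eq_or_lt_of_le hb with h0 | hb'
  · have ha1 : a = 1 := by linarith
    rw [← h0, ha1, zero_smul, one_smul, add_zero]; exact hx
  exact h.add_mem _ (h.smul_mem a ha' x hx) _ (h.smul_mem b hb' y hy)

theorem IsCone.isOpen_interval (h : IsCone C) (w : ℝ × (Fin n → ℝ)) :
    IsOpen {y | y ∈ C ∧ w - y ∈ C} :=
  h.isOpen.inter (h.isOpen.preimage (by fun_prop : Continuous fun y => w - y))

theorem IsCone.measurable_V (h : IsCone C) : Measurable (V C) := by
  have hset : MeasurableSet {q : (ℝ × (Fin n → ℝ)) × (ℝ × (Fin n → ℝ)) |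
      q.2 ∈ C ∧ q.1 - q.2 ∈ C} := by
    refine IsOpen.measurableSet ?_
    exact (h.isOpen.preimage continuous_snd).inter
      (h.isOpen.preimage (by fun_prop : Continuous fun q : (ℝ × (Fin n → ℝ)) ×
        (ℝ × (Fin n → ℝ)) => q.1 - q.2))
  exact measurable_measure_prodMk_left hset

theorem IsCone.V_pos (h : IsCone C) {w : ℝ × (Fin n → ℝ)} (hw : w ∈ C) : 0 < V C w := by
  refine (h.isOpen_interval w).measure_pos volume ⟨(1 / 2 : ℝ) • w, ?_, ?_⟩
  · exact h.smul_mem _ (by norm_num) _ hw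
  · have : w - (1 / 2 : ℝ) • w = (1 / 2 : ℝ) • w := by
      nth_rewrite 1 [← one_smul ℝ w]
      rw [← sub_smul]; norm_num
    rw [this]
    exact h.smul_mem _ (by norm_num) _ hw

theorem IsCone.V_eq_zero (h : IsCone C) {w : ℝ × (Fin n → ℝ)} (hw : w ∉ C) : V C w = 0 := by
  have : {y | y ∈ C ∧ w - y ∈ C} = ∅ := by
    rw [eq_empty_iff_forall_notMem]
    rintro y ⟨h1, h2⟩
    have h3 := h.add_mem _ h1 _ h2
    rw [add_sub_cancel] at h3
    exact hw h3
  rw [V, this, measure_empty]

theorem IsCone.V_smul (h : IsCone C) (r : ℝ) (hr : 0 < r) (w : ℝ × (Fin n → ℝ)) :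
    V C (r • w) = ENNReal.ofReal (r ^ (n + 1)) * V C w := by
  have hset : {y | y ∈ C ∧ r • w - y ∈ C} = r • {y | y ∈ C ∧ w - y ∈ C} := by
    ext y
    rw [mem_smul_set_iff_inv_smul_mem₀ hr.ne']
    constructor
    · rintro ⟨h1, h2⟩
      refine ⟨h.smul_mem _ (by positivity) _ h1, ?_⟩
      have h3 := h.smul_mem r⁻¹ (by positivity) _ h2
      rwa [smul_sub, inv_smul_smul₀ hr.ne'] at h3
    · rintro ⟨h1, h2⟩
      have h3 := h.smul_mem r hr _ h1
      have h4 := h.smul_mem r hr _ h2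
      rw [smul_inv_smul₀ hr.ne'] at h3
      rw [smul_sub, smul_inv_smul₀ hr.ne'] at h4
      exact ⟨h3, h4⟩
  have hfin : Module.finrank ℝ (ℝ × (Fin n → ℝ)) = n + 1 := by
    rw [Module.finrank_prod, Module.finrank_fin_fun, Module.finrank_self]; ring
  rw [V, hset, Measure.addHaar_smul, hfin, abs_of_pos (by positivity), V]

theorem IsCone.V_mul (h : IsCone C) (p q : ℝ × (Fin n → ℝ)) {a b : ℝ}
    (ha : 0 < a) (hb : 0 < b) (hab : a + b = 1) :
    V C p ^ a * V C q ^ b ≤ V C (a • p + b • q) := by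
  refine bm_prod n (h.isOpen_interval p).measurableSet (h.isOpen_interval q).measurableSet
    (h.isOpen_interval _).measurableSet ha hb hab ?_
  rintro x ⟨hx1, hx2⟩ y ⟨hy1, hy2⟩
  refine ⟨h.convex hx1 hy1 ha.le hb.le hab, ?_⟩
  have e1 : a • p + b • q - (a • x + b • y) = a • (p - x) + b • (q - y) := by
    rw [smul_sub, smul_sub]; abel
  rw [e1]
  exact h.convex hx2 hy2 ha.le hb.le hab

theorem IsCone.toReal_pos (h : IsCone C) {w : ℝ × (Fin n → ℝ)} (hw : w ∈ C) :
    0 < (V C w).toReal :=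
  ENNReal.toReal_pos (h.V_pos hw).ne' (h.finite w).ne

theorem IsCone.concaveOn_log (h : IsCone C) :
    ConcaveOn ℝ C (fun p => Real.log (V C p).toReal) := by
  refine ⟨h.convex, ?_⟩
  intro p hp q hq a b ha hb hab
  simp only [smul_eq_mul]
  rcases eq_or_lt_of_le ha with h0 | ha'
  · have hb1 : b = 1 := by linarith
    rw [← h0, hb1]; simp
  rcases eq_or_lt_of_le hb with h0 | hb'
  · have ha1 : a = 1 := by linarith
    rw [← h0, ha1]; simp
  have h1 := h.V_mul p q ha' hb' hab
  have h2 := ENNReal.toReal_mono (h.finite _).ne h1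
  rw [ENNReal.toReal_mul, ← ENNReal.toReal_rpow, ← ENNReal.toReal_rpow] at h2
  have pp := h.toReal_pos hp
  have pq := h.toReal_pos hq
  have h3 := Real.log_le_log (by positivity) h2
  rw [Real.log_mul (by positivity) (by positivity), Real.log_rpow pp, Real.log_rpow pq] at h3
  exact h3

/-- The supporting functional of the volume at an interior point. -/
theorem IsCone.exists_support (h : IsCone C) {e : ℝ × (Fin n → ℝ)} (he : e ∈ C) :
    ∃ l : (ℝ × (Fin n → ℝ)) →L[ℝ] ℝ, l e = n + 1 ∧ ∀ p ∈ C, 0 < l p ∧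
      (V C p).toReal ≤ (V C e).toReal * (l p / (n + 1)) ^ (n + 1) := by
  obtain ⟨l, hl⟩ := exists_supergradient h.isOpen h.concaveOn_log he
  have hN : (0 : ℝ) < (n : ℝ) + 1 := by positivity
  have hscale : ∀ p ∈ C, ∀ r : ℝ, 0 < r → ((n : ℝ) + 1) * Real.log r + Real.log (V C p).toReal
      ≤ Real.log (V C e).toReal + (r * l p - l e) := by
    intro p hp r hr
    have h1 := hl (r • p) (h.smul_mem r hr p hp)
    rw [h.V_smul r hr, ENNReal.toReal_mul, ENNReal.toReal_ofReal (by positivity),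
      Real.log_mul (by positivity) (h.toReal_pos hp).ne', Real.log_pow, map_sub, map_smul,
      smul_eq_mul] at h1
    push_cast at h1
    exact h1
  have hle : l e = n + 1 := by
    have hmin : IsLocalMin (fun r : ℝ => (r - 1) * l e - ((n : ℝ) + 1) * Real.log r) 1 := by
      filter_upwards [lt_mem_nhds (show (0 : ℝ) < 1 from one_pos)] with r hr
      have h1 := hscale e he r hr
      simp only [sub_self, zero_mul, Real.log_one, mul_zero]
      linarith
    have hder : HasDerivAt (fun r : ℝ => (r - 1) * l e - ((n : ℝ) + 1) * Real.log r)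
        (1 * l e - ((n : ℝ) + 1) * (1 : ℝ)⁻¹) 1 := by
      refine HasDerivAt.sub ?_ ?_
      · exact ((hasDerivAt_id (1 : ℝ)).sub_const 1).mul_const _
      · exact (Real.hasDerivAt_log one_ne_zero).const_mul _
    have h2 := hmin.hasDerivAt_eq_zero hder
    linarith
  refine ⟨l, hle, fun p hp => ?_⟩
  have hVp := h.toReal_pos hp
  have hVe := h.toReal_pos he
  have hpos : 0 < l p := by
    by_contra hneg
    rw [not_lt] at hneg
    have h1 := hscale p hp (Real.exp ((Real.log (V C e).toReal - Real.log (V C p).toReal) /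
      ((n : ℝ) + 1))) (Real.exp_pos _)
    rw [Real.log_exp, mul_div_cancel₀ _ hN.ne', hle] at h1
    have h2 : Real.exp ((Real.log (V C e).toReal - Real.log (V C p).toReal) / ((n : ℝ) + 1)) * l p
        ≤ 0 := mul_nonpos_of_nonneg_of_nonpos (Real.exp_pos _).le hneg
    linarith
  refine ⟨hpos, ?_⟩
  have h1 := hscale p hp (((n : ℝ) + 1) / l p) (by positivity)
  rw [div_mul_cancel₀ _ hpos.ne', hle, sub_self, add_zero] at h1
  have h2 : Real.log (V C p).toReal ≤ Real.log ((V C e).toReal * (l p / (n + 1)) ^ (n + 1)) := by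
    rw [Real.log_mul hVe.ne' (by positivity), Real.log_pow, Real.log_div hpos.ne' hN.ne']
    rw [Real.log_div hN.ne' hpos.ne'] at h1
    push_cast
    linarith
  exact (Real.log_le_log_iff hVp (by positivity)).1 h2

end Pool.Agent.Lib.Helper13.Ehrhart
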