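import Mathlib
import Pool.Agent.Lib.Helper13.Ehrhart.Expo

/-!
# Moments of a homogeneous function over the sublevel set of a homogeneous function
-/

open MeasureTheory Set
open scoped ENNReal Pointwise

namespace Pool.Agent.Lib.Helper13.Ehrhart

theorem lintegral_Ioc_pow (j : ℕ) (m : ℝ) (hm : 0 ≤ m) (hm1 : m ≤ 1) :
    ∫⁻ s in Ioc m 1, ENNReal.ofReal (((j : ℝ) + 1) * s ^ j) = ENNReal.ofReal (1 - m ^ (j + 1)) := by
  have h1 : ∫ s in m..1, (((j : ℝ) + 1) * s ^ j) = 1 - m ^ (j + 1) := by
    rw [intervalIntegral.integral_const_mul, integral_pow]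
    field_simp
    ring
  have hint : IntegrableOn (fun s : ℝ => ((j : ℝ) + 1) * s ^ j) (Ioc m 1) volume := by
    have : IntervalIntegrable (fun s : ℝ => ((j : ℝ) + 1) * s ^ j) volume m 1 :=
      (by fun_prop : Continuous fun s : ℝ => ((j : ℝ) + 1) * s ^ j).intervalIntegrable _ _
    exact (intervalIntegrable_iff_integrableOn_Ioc_of_le hm1).1 this
  rw [← h1, intervalIntegral.integral_of_le hm1,
    ofReal_integral_eq_lintegral_ofReal hint]
  refine (ae_restrict_iff' measurableSet_Ioc).2 (Filter.Eventually.of_forall fun s hs => ?_)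
  have : 0 < s := lt_of_le_of_lt hm hs.1
  simp only [Pi.zero_apply]
  positivity

/-- If the integral of `φ` over `{M < r}` is `r ^ K * c`, then the integral of `φ * M ^ (j + 1)`
over `{M < 1}` is `K / (K + j + 1) * c`. -/
theorem moment_eq {X : Type*} [MeasurableSpace X] {μ : Measure X} [SFinite μ]
    {M : X → ℝ} (hM : Measurable M) (hM0 : ∀ x, 0 ≤ M x) {φ : X → ℝ≥0∞} (hφ : Measurable φ)
    (K j : ℕ) (c : ℝ≥0∞) (hc : c ≠ ⊤)
    (h : ∀ r : ℝ, 0 < r → ∫⁻ x in {x | M x < r}, φ x ∂μ = ENNReal.ofReal (r ^ K) * c) :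
    ((K + j + 1 : ℕ) : ℝ≥0∞) * ∫⁻ x in {x | M x < 1}, φ x * ENNReal.ofReal (M x ^ (j + 1)) ∂μ
      = (K : ℝ≥0∞) * c := by
  have hms : ∀ r : ℝ, MeasurableSet {x | M x < r} := fun r => measurableSet_lt hM measurable_const
  -- the complementary integral
  have key : ∫⁻ x in {x | M x < 1}, φ x * ENNReal.ofReal (1 - M x ^ (j + 1)) ∂μ
      = ENNReal.ofReal (((j : ℝ) + 1) / (K + j + 1)) * c := by
    have e1 : ∀ x, ({x | M x < 1} : Set X).indicator
        (fun x => φ x * ENNReal.ofReal (1 - M x ^ (j + 1))) x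
        = ∫⁻ s : ℝ, (Ioc (0 : ℝ) 1).indicator (fun s => ENNReal.ofReal (((j : ℝ) + 1) * s ^ j) *
            ({x | M x < s} : Set X).indicator φ x) s := by
      intro x
      by_cases hx : M x < 1
      · rw [indicator_of_mem (show x ∈ {x | M x < 1} from hx),
          ← lintegral_Ioc_pow j (M x) (hM0 x) hx.le, ← lintegral_const_mul _ (by fun_prop),
          ← lintegral_indicator measurableSet_Ioc]
        refine lintegral_congr fun s => ?_
        by_cases hs : s ∈ Ioc (M x) 1
        · have h0 : s ∈ Ioc (0 : ℝ) 1 := ⟨lt_of_le_of_lt (hM0 x) hs.1, hs.2⟩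
          rw [indicator_of_mem hs, indicator_of_mem h0,
            indicator_of_mem (show x ∈ {x | M x < s} from hs.1), mul_comm]
        · rw [indicator_of_notMem hs]
          by_cases h0 : s ∈ Ioc (0 : ℝ) 1
          · have h1 : x ∉ {x | M x < s} := fun h2 => hs ⟨h2, h0.2⟩
            rw [indicator_of_mem h0, indicator_of_notMem h1, mul_zero]
          · rw [indicator_of_notMem h0]
      · rw [indicator_of_notMem (show x ∉ {x | M x < 1} from hx)]
        symm
        rw [lintegral_eq_zero_iff']
        · refine Filter.Eventually.of_forall fun s => ?_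
          simp only [Pi.zero_apply]
          by_cases h0 : s ∈ Ioc (0 : ℝ) 1
          · have h1 : x ∉ {x | M x < s} := fun h2 => hx (lt_of_lt_of_le h2 h0.2)
            rw [indicator_of_mem h0, indicator_of_notMem h1, mul_zero]
          · rw [indicator_of_notMem h0]
        · refine Measurable.aemeasurable ?_
          refine Measurable.indicator ?_ measurableSet_Ioc
          refine Measurable.mul (by fun_prop) ?_
          have : (fun s : ℝ => ({x | M x < s} : Set X).indicator φ x)
              = (Ioi (M x)).indicator (fun _ => φ x) := by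
            funext s
            by_cases hs : M x < s
            · rw [indicator_of_mem (show x ∈ {x | M x < s} from hs),
                indicator_of_mem (show s ∈ Ioi (M x) from hs)]
            · rw [indicator_of_notMem (show x ∉ {x | M x < s} from hs),
                indicator_of_notMem (show s ∉ Ioi (M x) from hs)]
          rw [this]
          exact measurable_const.indicator measurableSet_Ioi
    rw [← lintegral_indicator (hms 1)]
    simp_rw [e1]
    rw [lintegral_lintegral_swap]
    · have e2 : ∀ s : ℝ, ∫⁻ x, (Ioc (0 : ℝ) 1).indicator (fun s =>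
            ENNReal.ofReal (((j : ℝ) + 1) * s ^ j) * ({x | M x < s} : Set X).indicator φ x) s ∂μ
          = (Ioc (0 : ℝ) 1).indicator (fun s =>
            ENNReal.ofReal (((j : ℝ) + 1) / (K + j + 1)) *
              ENNReal.ofReal ((((K + j : ℕ) : ℝ) + 1) * s ^ (K + j)) * c) s := by
        intro s
        by_cases h0 : s ∈ Ioc (0 : ℝ) 1
        · simp only [indicator_of_mem h0]
          rw [lintegral_const_mul _ (hφ.indicator (hms s)), lintegral_indicator (hms s),
            h s h0.1, ← mul_assoc]
          congr 1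
          have hs : 0 < s := h0.1
          rw [← ENNReal.ofReal_mul (by positivity), ← ENNReal.ofReal_mul (by positivity)]
          congr 1
          push_cast
          field_simp
          ring
        · simp only [indicator_of_notMem h0, lintegral_zero]
      simp_rw [e2]
      rw [lintegral_indicator measurableSet_Ioc, lintegral_mul_const _ (by fun_prop),
        lintegral_const_mul _ (by fun_prop), lintegral_Ioc_pow (K + j) 0 le_rfl zero_le_one]
      simp
    · have : (Function.uncurry fun (x : X) (s : ℝ) => (Ioc (0 : ℝ) 1).indicator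
          (fun s => ENNReal.ofReal (((j : ℝ) + 1) * s ^ j) *
            ({x | M x < s} : Set X).indicator φ x) s)
          = ({p : X × ℝ | p.2 ∈ Ioc (0 : ℝ) 1} ∩ {p : X × ℝ | M p.1 < p.2}).indicator
            (fun p => ENNReal.ofReal (((j : ℝ) + 1) * p.2 ^ j) * φ p.1) := by
        funext ⟨x, r⟩
        simp only [Function.uncurry_apply_pair]
        by_cases h0 : r ∈ Ioc (0 : ℝ) 1
        · by_cases hr : M x < r
          · rw [indicator_of_mem h0, indicator_of_mem (show x ∈ {x | M x < r} from hr),
              indicator_of_mem (show (x, r) ∈ ({p : X × ℝ | p.2 ∈ Ioc (0 : ℝ) 1} ∩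
                {p : X × ℝ | M p.1 < p.2}) from ⟨h0, hr⟩)]
          · rw [indicator_of_mem h0, indicator_of_notMem (show x ∉ {x | M x < r} from hr), mul_zero,
              indicator_of_notMem (fun hh => hr hh.2)]
        · rw [indicator_of_notMem h0, indicator_of_notMem (fun hh => h0 hh.1)]
      rw [this]
      refine Measurable.aemeasurable (Measurable.indicator ?_ ?_)
      · exact (by fun_prop : Measurable fun p : X × ℝ =>
          ENNReal.ofReal (((j : ℝ) + 1) * p.2 ^ j)).mul (hφ.comp measurable_fst)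
      · refine MeasurableSet.inter ?_ ?_
        · exact measurable_snd measurableSet_Ioc
        · exact measurableSet_lt (hM.comp measurable_fst) measurable_snd
  have hsum : ∫⁻ x in {x | M x < 1}, φ x * ENNReal.ofReal (M x ^ (j + 1)) ∂μ
      + ∫⁻ x in {x | M x < 1}, φ x * ENNReal.ofReal (1 - M x ^ (j + 1)) ∂μ = c := by
    have h1 : ∫⁻ x in {x | M x < 1}, φ x ∂μ = c := by
      have := h 1 one_pos
      simpa using this
    rw [← lintegral_add_left (by fun_prop), ← h1]
    refine setLIntegral_congr_fun (hms 1) fun x hx => ?_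
    have hx1 : M x < 1 := hx
    have h2 : M x ^ (j + 1) ≤ 1 := pow_le_one₀ (hM0 x) hx1.le
    have h3 : 0 ≤ M x ^ (j + 1) := pow_nonneg (hM0 x) _
    rw [← mul_add, ← ENNReal.ofReal_add h3 (by linarith), add_sub_cancel, ENNReal.ofReal_one,
      mul_one]
  rw [key] at hsum
  set I := ∫⁻ x in {x | M x < 1}, φ x * ENNReal.ofReal (M x ^ (j + 1)) ∂μ with hI
  have hKj : (0 : ℝ) < (K : ℝ) + j + 1 := by positivity
  have h5 : ((K + j + 1 : ℕ) : ℝ≥0∞) * (ENNReal.ofReal (((j : ℝ) + 1) / (K + j + 1)) * c)
      = ((j + 1 : ℕ) : ℝ≥0∞) * c := by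
    rw [← mul_assoc]
    congr 1
    rw [← ENNReal.ofReal_natCast, ← ENNReal.ofReal_natCast, ← ENNReal.ofReal_mul (by positivity)]
    congr 1
    push_cast
    field_simp
  have h6 : ((K + j + 1 : ℕ) : ℝ≥0∞) * I + ((j + 1 : ℕ) : ℝ≥0∞) * c
      = (K : ℝ≥0∞) * c + ((j + 1 : ℕ) : ℝ≥0∞) * c := by
    have h7 : ((K + j + 1 : ℕ) : ℝ≥0∞) * I + ((j + 1 : ℕ) : ℝ≥0∞) * c
        = ((K + j + 1 : ℕ) : ℝ≥0∞) * c := by
      rw [← h5, ← mul_add, hsum]
    rw [h7, ← add_mul]
    push_cast
    ring
  exact (ENNReal.add_left_inj (ENNReal.mul_ne_top (ENNReal.natCast_ne_top _) hc)).1 h6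

end Pool.Agent.Lib.Helper13.Ehrhart
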