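import Mathlib
import Pool.Agent.Lib.Helper13.Ehrhart.Cone
import Pool.Agent.Lib.Helper13.Ehrhart.Moment

/-!
# Laplace transforms on an open convex cone
-/

open MeasureTheory Set
open scoped ENNReal Pointwise

namespace Pool.Agent.Lib.Helper13.Ehrhart

variable {n : ℕ} {C : Set (ℝ × (Fin n → ℝ))}

theorem finrank_prod' : Module.finrank ℝ (ℝ × (Fin n → ℝ)) = n + 1 := by
  rw [Module.finrank_prod, Module.finrank_fin_fun, Module.finrank_self]; ring

/-- The exponential weight on the cone. -/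
noncomputable def wt (C : Set (ℝ × (Fin n → ℝ))) (l : (ℝ × (Fin n → ℝ)) →L[ℝ] ℝ) (c : ℝ) :
    ℝ × (Fin n → ℝ) → ℝ≥0∞ :=
  C.indicator fun y => ENNReal.ofReal (Real.exp (-(c * |l y|)))

/-- The Laplace transform of the cone. -/
noncomputable def psi (C : Set (ℝ × (Fin n → ℝ))) (l : (ℝ × (Fin n → ℝ)) →L[ℝ] ℝ) : ℝ≥0∞ :=
  ∫⁻ y, wt C l 1 y

theorem IsCone.measurable_wt (h : IsCone C) (l : (ℝ × (Fin n → ℝ)) →L[ℝ] ℝ) (c : ℝ) :
    Measurable (wt C l c) :=
  Measurable.indicator (by fun_prop) h.isOpen.measurableSet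

theorem IsCone.conv_wt (h : IsCone C) (l : (ℝ × (Fin n → ℝ)) →L[ℝ] ℝ) (hl : ∀ p ∈ C, 0 < l p)
    (c : ℝ) (w : ℝ × (Fin n → ℝ)) :
    ∫⁻ a, wt C l c a * wt C l c (w - a)
      = V C w * ENNReal.ofReal (Real.exp (-(c * |l w|))) := by
  have e1 : ∀ a, wt C l c a * wt C l c (w - a)
      = {y | y ∈ C ∧ w - y ∈ C}.indicator
        (fun _ => ENNReal.ofReal (Real.exp (-(c * |l w|)))) a := by
    intro a
    by_cases ha : a ∈ C
    · by_cases hb : w - a ∈ C
      · rw [indicator_of_mem (show a ∈ {y | y ∈ C ∧ w - y ∈ C} from ⟨ha, hb⟩), wt,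
          indicator_of_mem ha, indicator_of_mem hb, ← ENNReal.ofReal_mul (Real.exp_pos _).le,
          ← Real.exp_add]
        congr 2
        have hw : w ∈ C := by
          have := h.add_mem _ ha _ hb
          rwa [add_sub_cancel] at this
        rw [abs_of_pos (hl _ ha), abs_of_pos (hl _ hb), abs_of_pos (hl _ hw), map_sub]
        ring
      · rw [indicator_of_notMem (show a ∉ {y | y ∈ C ∧ w - y ∈ C} from fun hh => hb hh.2), wt,
          indicator_of_notMem hb, mul_zero]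
    · rw [indicator_of_notMem (show a ∉ {y | y ∈ C ∧ w - y ∈ C} from fun hh => ha hh.1), wt,
        indicator_of_notMem ha, zero_mul]
  simp_rw [e1]
  rw [lintegral_indicator (h.isOpen_interval w).measurableSet, lintegral_const,
    Measure.restrict_apply MeasurableSet.univ, univ_inter, mul_comm, V]

theorem IsCone.integral_V (h : IsCone C) (l : (ℝ × (Fin n → ℝ)) →L[ℝ] ℝ)
    (hl : ∀ p ∈ C, 0 < l p) :
    ∫⁻ w, V C w * ENNReal.ofReal (Real.exp (-|l w|)) = psi C l ^ 2 := by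
  have hm := h.measurable_wt l 1
  have e1 : ∀ w, V C w * ENNReal.ofReal (Real.exp (-|l w|))
      = ∫⁻ a, wt C l 1 a * wt C l 1 (w - a) := by
    intro w
    rw [h.conv_wt l hl 1 w, one_mul]
  simp_rw [e1]
  rw [lintegral_lintegral_swap]
  · have e2 : ∀ a, ∫⁻ w, wt C l 1 a * wt C l 1 (w - a) = wt C l 1 a * psi C l := by
      intro a
      rw [lintegral_const_mul _ (by fun_prop), lintegral_sub_right_eq_self (wt C l 1) a, psi]
    simp_rw [e2]
    rw [lintegral_mul_const _ hm, psi, sq]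
  · exact Measurable.aemeasurable (by unfold Function.uncurry; fun_prop)

theorem rpow_half_mul (a b : ℝ) :
    ENNReal.ofReal (Real.exp a) ^ (1 / 2 : ℝ) * ENNReal.ofReal (Real.exp b) ^ (1 / 2 : ℝ)
      = ENNReal.ofReal (Real.exp ((a + b) / 2)) := by
  rw [ENNReal.ofReal_rpow_of_pos (Real.exp_pos _), ENNReal.ofReal_rpow_of_pos (Real.exp_pos _),
    ← ENNReal.ofReal_mul (by positivity), ← Real.exp_mul, ← Real.exp_mul, ← Real.exp_add]
  congr 2
  ring

theorem IsCone.energy (h : IsCone C) (l : (ℝ × (Fin n → ℝ)) →L[ℝ] ℝ)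
    (hl : ∀ p ∈ C, 0 < l p) :
    2 ^ (n + 1) * psi C l ^ 3 ≤ ∫⁻ w, V C w ^ 2 * ENNReal.ofReal (Real.exp (-|l w|)) := by
  have hm := h.measurable_wt l (1 / 2)
  have h1 := energy_le (F := wt C l (1 / 2)) hm (by
    intro x y
    by_cases hx : x ∈ C
    · by_cases hy : y ∈ C
      · have hxy : (1 / 2 : ℝ) • x + (1 / 2 : ℝ) • y ∈ C :=
          h.convex hx hy (by norm_num) (by norm_num) (by norm_num)
        rw [wt, indicator_of_mem hx, indicator_of_mem hy, indicator_of_mem hxy, rpow_half_mul]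
        refine ENNReal.ofReal_le_ofReal (Real.exp_le_exp.2 (le_of_eq ?_))
        rw [abs_of_pos (hl _ hx), abs_of_pos (hl _ hy), abs_of_pos (hl _ hxy), map_add, map_smul,
          map_smul, smul_eq_mul, smul_eq_mul]
        ring
      · rw [wt, indicator_of_notMem hy, ENNReal.zero_rpow_of_pos (by norm_num), mul_zero]
        exact bot_le
    · rw [wt, indicator_of_notMem hx, ENNReal.zero_rpow_of_pos (by norm_num), zero_mul]
      exact bot_le)
  -- the square of the half weight is the weight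
  have h2 : ∫⁻ a, wt C l (1 / 2) a ^ 2 = psi C l := by
    rw [psi]
    refine lintegral_congr fun a => ?_
    by_cases ha : a ∈ C
    · rw [wt, wt, indicator_of_mem ha, indicator_of_mem ha, sq,
        ← ENNReal.ofReal_mul (Real.exp_pos _).le, ← Real.exp_add]
      congr 2
      ring
    · rw [wt, wt, indicator_of_notMem ha, indicator_of_notMem ha, sq, zero_mul]
  -- scaling
  have h3 : ∫⁻ a, wt C l (1 / 2) a = 2 ^ (n + 1) * psi C l := by
    have h4 := lintegral_comp_smul' (volume : Measure (ℝ × (Fin n → ℝ))) hm (r := 2) (by norm_num)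
    have h5 : ∫⁻ x, wt C l (1 / 2) ((2 : ℝ) • x) = psi C l := by
      rw [psi]
      refine lintegral_congr fun a => ?_
      have hiff : (2 : ℝ) • a ∈ C ↔ a ∈ C := by
        constructor
        · intro ha
          have := h.smul_mem (1 / 2) (by norm_num) _ ha
          rwa [smul_smul, show (1 / 2 : ℝ) * 2 = 1 by norm_num, one_smul] at this
        · exact h.smul_mem 2 (by norm_num) _
      by_cases ha : a ∈ C
      · rw [wt, wt, indicator_of_mem ha, indicator_of_mem (hiff.2 ha), map_smul, smul_eq_mul,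
          abs_mul, abs_of_pos (by norm_num : (0 : ℝ) < 2)]
        congr 2
        ring
      · rw [wt, wt, indicator_of_notMem ha, indicator_of_notMem (fun hh => ha (hiff.1 hh))]
    rw [h5, finrank_prod'] at h4
    rw [h4, ← mul_assoc]
    have h6 : (2 : ℝ≥0∞) ^ (n + 1) * ENNReal.ofReal (((2 : ℝ) ^ (n + 1))⁻¹) = 1 := by
      have h7 : (2 : ℝ≥0∞) ^ (n + 1) = ENNReal.ofReal ((2 : ℝ) ^ (n + 1)) := by
        rw [ENNReal.ofReal_pow (by norm_num)]; norm_num
      rw [h7, ← ENNReal.ofReal_mul (by positivity), mul_inv_cancel₀ (by positivity),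
        ENNReal.ofReal_one]
    rw [h6, one_mul]
  have h8 : ∫⁻ w, (∫⁻ a, wt C l (1 / 2) a * wt C l (1 / 2) (w - a)) ^ 2
      = ∫⁻ w, V C w ^ 2 * ENNReal.ofReal (Real.exp (-|l w|)) := by
    refine lintegral_congr fun w => ?_
    rw [h.conv_wt l hl (1 / 2) w, mul_pow]
    congr 1
    rw [sq, ← ENNReal.ofReal_mul (Real.exp_pos _).le, ← Real.exp_add]
    congr 2
    ring
  rw [h2, h3, h8] at h1
  have h9 : psi C l * (2 ^ (n + 1) * psi C l) ^ 2
      = 2 ^ (n + 1) * (2 ^ (n + 1) * psi C l ^ 3) := by ring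
  rw [h9] at h1
  exact (ENNReal.mul_le_mul_iff_right (by positivity) (by finiteness)).1 h1

theorem abs_hom (l : (ℝ × (Fin n → ℝ)) →L[ℝ] ℝ) (r : ℝ) (hr : 0 < r) (x : ℝ × (Fin n → ℝ)) :
    |l (r • x)| = r * |l x| := by
  rw [map_smul, smul_eq_mul, abs_mul, abs_of_pos hr]

/-- The `(n+1)`-st moment of `l` against `V exp (-l)`. -/
theorem IsCone.moment (h : IsCone C) (l : (ℝ × (Fin n → ℝ)) →L[ℝ] ℝ)
    (hl : ∀ p ∈ C, 0 < l p) (hfin : psi C l ≠ ⊤) :
    (((2 * (n + 1)).factorial * (3 * (n + 1)) : ℕ) : ℝ≥0∞) *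
      ∫⁻ w, V C w * ENNReal.ofReal (|l w| ^ (n + 1)) * ENNReal.ofReal (Real.exp (-|l w|))
      = (((3 * (n + 1)).factorial * (2 * (n + 1)) : ℕ) : ℝ≥0∞) * psi C l ^ 2 := by
  have hM : Measurable fun x : ℝ × (Fin n → ℝ) => |l x| := by fun_prop
  have hM0 : ∀ x : ℝ × (Fin n → ℝ), 0 ≤ |l x| := fun x => abs_nonneg _
  have hV := h.measurable_V
  set c := ∫⁻ x in {x | |l x| < 1}, V C x with hc
  have hs1 : ∀ r : ℝ, 0 < r → ∫⁻ x in {x | |l x| < r}, V C x
      = ENNReal.ofReal (r ^ (2 * (n + 1))) * c := by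
    intro r hr
    have h1 := setLIntegral_lt_scale (volume : Measure (ℝ × (Fin n → ℝ))) hM
      (fun r hr x => abs_hom l r hr x) hV (n + 1) (fun r hr x => h.V_smul r hr x) r hr
    rw [finrank_prod'] at h1
    rw [h1]
    congr 3
    ring
  have e1 := lintegral_mul_exp (μ := (volume : Measure (ℝ × (Fin n → ℝ)))) hM hM0 hV
    (2 * (n + 1)) c hs1
  rw [h.integral_V l hl] at e1
  have hcfin : c ≠ ⊤ := by
    intro hct
    rw [hct, ENNReal.mul_top (by exact_mod_cast Nat.factorial_ne_zero _)] at e1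
    exact (ENNReal.pow_ne_top hfin) e1
  have e2 := moment_eq (μ := (volume : Measure (ℝ × (Fin n → ℝ)))) hM hM0 hV (2 * (n + 1)) n c
    hcfin hs1
  set c' := ∫⁻ x in {x | |l x| < 1}, V C x * ENNReal.ofReal (|l x| ^ (n + 1)) with hc'
  have e3 := lintegral_mul_exp (μ := (volume : Measure (ℝ × (Fin n → ℝ)))) hM hM0
    (φ := fun x => V C x * ENNReal.ofReal (|l x| ^ (n + 1))) (by fun_prop)
    (3 * (n + 1)) c' (by
      intro r hr
      have h1 := setLIntegral_lt_scale (volume : Measure (ℝ × (Fin n → ℝ))) hM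
        (fun r hr x => abs_hom l r hr x)
        (φ := fun x => V C x * ENNReal.ofReal (|l x| ^ (n + 1))) (by fun_prop) (2 * (n + 1))
        (fun r hr x => by
          have hr2 : ENNReal.ofReal (r ^ (2 * (n + 1)))
              = ENNReal.ofReal (r ^ (n + 1)) * ENNReal.ofReal (r ^ (n + 1)) := by
            rw [← ENNReal.ofReal_mul (by positivity)]
            congr 1
            ring
          rw [h.V_smul r hr, abs_hom l r hr, mul_pow, ENNReal.ofReal_mul (by positivity), hr2]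
          ring) r hr
      rw [finrank_prod'] at h1
      rw [h1]
      congr 3
      ring)
  rw [e3, e1]
  have e4 : ((2 * (n + 1) + n + 1 : ℕ) : ℝ≥0∞) = ((3 * (n + 1) : ℕ) : ℝ≥0∞) := by
    congr 1; ring
  rw [e4] at e2
  calc (((2 * (n + 1)).factorial * (3 * (n + 1)) : ℕ) : ℝ≥0∞) *
        (((3 * (n + 1)).factorial : ℝ≥0∞) * c')
      = ((2 * (n + 1)).factorial : ℝ≥0∞) * ((3 * (n + 1)).factorial : ℝ≥0∞) *
        (((3 * (n + 1) : ℕ) : ℝ≥0∞) * c') := by push_cast; ring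
    _ = ((2 * (n + 1)).factorial : ℝ≥0∞) * ((3 * (n + 1)).factorial : ℝ≥0∞) *
        (((2 * (n + 1) : ℕ) : ℝ≥0∞) * c) := by rw [e2]
    _ = _ := by push_cast; ring

/-- The main inequality for cones. -/
theorem IsCone.main (h : IsCone C) (l : (ℝ × (Fin n → ℝ)) →L[ℝ] ℝ) (v : ℝ≥0∞)
    (hl : ∀ p ∈ C, 0 < l p ∧ V C p ≤ v * ENNReal.ofReal ((l p / (n + 1)) ^ (n + 1)))
    (hfin : psi C l ≠ ⊤) (hpos : psi C l ≠ 0) :
    (((2 * (n + 1)).factorial * (3 * (n + 1)) * (2 ^ (n + 1) * (n + 1) ^ (n + 1)) : ℕ) : ℝ≥0∞) *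
      psi C l ≤ (((3 * (n + 1)).factorial * (2 * (n + 1)) : ℕ) : ℝ≥0∞) * v := by
  have hl' : ∀ p ∈ C, 0 < l p := fun p hp => (hl p hp).1
  have h1 := h.energy l hl'
  have h2 := h.moment l hl' hfin
  have hN : (0 : ℝ) < (n : ℝ) + 1 := by positivity
  set J := ∫⁻ w, V C w * ENNReal.ofReal (|l w| ^ (n + 1)) * ENNReal.ofReal (Real.exp (-|l w|))
    with hJ
  have h3 : (((n + 1) ^ (n + 1) : ℕ) : ℝ≥0∞) *
      ∫⁻ w, V C w ^ 2 * ENNReal.ofReal (Real.exp (-|l w|)) ≤ v * J := by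
    rw [← lintegral_const_mul _ (by have := h.measurable_V; fun_prop),
      hJ, ← lintegral_const_mul _ (by have := h.measurable_V; fun_prop)]
    refine lintegral_mono fun w => ?_
    by_cases hw : w ∈ C
    · have h4 := (hl w hw).2
      have h5 : (((n + 1) ^ (n + 1) : ℕ) : ℝ≥0∞) * V C w
          ≤ v * ENNReal.ofReal (|l w| ^ (n + 1)) := by
        calc (((n + 1) ^ (n + 1) : ℕ) : ℝ≥0∞) * V C w
            ≤ (((n + 1) ^ (n + 1) : ℕ) : ℝ≥0∞) *
              (v * ENNReal.ofReal ((l w / (n + 1)) ^ (n + 1))) := by gcongr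
          _ = v * ((((n + 1) ^ (n + 1) : ℕ) : ℝ≥0∞) *
              ENNReal.ofReal ((l w / (n + 1)) ^ (n + 1))) := by ring
          _ = v * ENNReal.ofReal (|l w| ^ (n + 1)) := by
              congr 1
              rw [← ENNReal.ofReal_natCast, ← ENNReal.ofReal_mul (by positivity)]
              congr 1
              rw [abs_of_pos (hl' w hw), div_pow]
              push_cast
              field_simp
      calc (((n + 1) ^ (n + 1) : ℕ) : ℝ≥0∞) * (V C w ^ 2 * ENNReal.ofReal (Real.exp (-|l w|)))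
          = ((((n + 1) ^ (n + 1) : ℕ) : ℝ≥0∞) * V C w) *
            (V C w * ENNReal.ofReal (Real.exp (-|l w|))) := by ring
        _ ≤ (v * ENNReal.ofReal (|l w| ^ (n + 1))) *
            (V C w * ENNReal.ofReal (Real.exp (-|l w|))) := by gcongr
        _ = _ := by ring
    · rw [h.V_eq_zero hw]
      simp
  have h6 : psi C l ^ 2 ≠ 0 := pow_ne_zero _ hpos
  have h7 : psi C l ^ 2 ≠ ⊤ := ENNReal.pow_ne_top hfin
  refine (ENNReal.mul_le_mul_iff_left h6 h7).1 ?_
  calc (((2 * (n + 1)).factorial * (3 * (n + 1)) * (2 ^ (n + 1) * (n + 1) ^ (n + 1)) : ℕ) : ℝ≥0∞) *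
        psi C l * psi C l ^ 2
      = (((2 * (n + 1)).factorial * (3 * (n + 1)) : ℕ) : ℝ≥0∞) *
        ((((n + 1) ^ (n + 1) : ℕ) : ℝ≥0∞) * (2 ^ (n + 1) * psi C l ^ 3)) := by push_cast; ring
    _ ≤ (((2 * (n + 1)).factorial * (3 * (n + 1)) : ℕ) : ℝ≥0∞) *
        ((((n + 1) ^ (n + 1) : ℕ) : ℝ≥0∞) *
          ∫⁻ w, V C w ^ 2 * ENNReal.ofReal (Real.exp (-|l w|))) := by gcongr
    _ ≤ (((2 * (n + 1)).factorial * (3 * (n + 1)) : ℕ) : ℝ≥0∞) * (v * J) := by gcongr
    _ = v * ((((2 * (n + 1)).factorial * (3 * (n + 1)) : ℕ) : ℝ≥0∞) * J) := by ring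
    _ = v * ((((3 * (n + 1)).factorial * (2 * (n + 1)) : ℕ) : ℝ≥0∞) * psi C l ^ 2) := by rw [h2]
    _ = _ := by ring

end Pool.Agent.Lib.Helper13.Ehrhart
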