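import Mathlib
import Pool.Agent.Lib.Helper13.Ehrhart.Body

/-!
# The fibre volumes `F p = vol {x | N x + N (p - x) < 1}`
-/

open MeasureTheory Set
open scoped ENNReal Pointwise Topology

namespace Pool.Agent.Lib.Helper13.Ehrhart

variable {n : ℕ} {K : Set (Fin n → ℝ)}

/-- The fibre of `(x, y) ↦ x + y` in `W K` over `p`. -/
def Fib (K : Set (Fin n → ℝ)) (p : Fin n → ℝ) : Set (Fin n → ℝ) :=
  {x | gauge K x + gauge K (p - x) < 1}

theorem isOpen_Fib (hc : Convex ℝ K) (h0 : K ∈ 𝓝 (0 : Fin n → ℝ)) (p : Fin n → ℝ) :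
    IsOpen (Fib K p) := by
  have h := gauge_cont hc h0
  exact isOpen_lt (by fun_prop) continuous_const

theorem gauge_add' (hc : Convex ℝ K) (h0 : K ∈ 𝓝 (0 : Fin n → ℝ)) (x y : Fin n → ℝ) :
    gauge K (x + y) ≤ gauge K x + gauge K y :=
  gauge_add_le hc (absorbent_nhds_zero h0) x y

theorem Fib_subset (hc : Convex ℝ K) (h0 : K ∈ 𝓝 (0 : Fin n → ℝ)) (p : Fin n → ℝ) :
    Fib K p ⊆ {x | gauge K x < 1} := by
  intro x hx
  have h1 : gauge K x + gauge K (p - x) < 1 := hx
  have h2 := gauge_nonneg (s := K) (p - x)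
  show gauge K x < 1
  linarith

theorem volume_Fib_lt_top (hK : IsCompact K) (hc : Convex ℝ K) (h0 : K ∈ 𝓝 (0 : Fin n → ℝ))
    (p : Fin n → ℝ) : volume (Fib K p) < ⊤ := by
  refine lt_of_le_of_lt (measure_mono (Fib_subset hc h0 p)) ?_
  rw [volume_gauge_lt hc h0]
  exact hK.measure_lt_top

theorem volume_Fib_pos (hc : Convex ℝ K) (h0 : K ∈ 𝓝 (0 : Fin n → ℝ)) {p : Fin n → ℝ}
    (hp : gauge K p < 1) : 0 < volume (Fib K p) := by
  refine (isOpen_Fib hc h0 p).measure_pos volume ⟨0, ?_⟩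
  show gauge K 0 + gauge K (p - 0) < 1
  simpa using hp

theorem volume_Fib_eq_zero (hc : Convex ℝ K) (h0 : K ∈ 𝓝 (0 : Fin n → ℝ)) {p : Fin n → ℝ}
    (hp : ¬ gauge K p < 1) : volume (Fib K p) = 0 := by
  have : Fib K p = ∅ := by
    rw [eq_empty_iff_forall_notMem]
    intro x hx
    have h1 : gauge K x + gauge K (p - x) < 1 := hx
    have h2 := gauge_add' hc h0 x (p - x)
    rw [add_sub_cancel] at h2
    exact hp (lt_of_le_of_lt h2 h1)
  rw [this, measure_empty]

theorem volume_Fib_mul (hc : Convex ℝ K) (h0 : K ∈ 𝓝 (0 : Fin n → ℝ)) (p q : Fin n → ℝ) {a b : ℝ}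
    (ha : 0 < a) (hb : 0 < b) (hab : a + b = 1) :
    volume (Fib K p) ^ a * volume (Fib K q) ^ b ≤ volume (Fib K (a • p + b • q)) := by
  refine Pool.Agent.Lib.H31.brunn_minkowski_mul_pi n (isOpen_Fib hc h0 p).measurableSet
    (isOpen_Fib hc h0 q).measurableSet (isOpen_Fib hc h0 _).measurableSet ha hb hab ?_
  intro x hx y hy
  have hx' : gauge K x + gauge K (p - x) < 1 := hx
  have hy' : gauge K y + gauge K (q - y) < 1 := hy
  show gauge K (a • x + b • y) + gauge K (a • p + b • q - (a • x + b • y)) < 1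
  have e1 : a • p + b • q - (a • x + b • y) = a • (p - x) + b • (q - y) := by
    rw [smul_sub, smul_sub]; abel
  rw [e1]
  have h1 := gauge_add' hc h0 (a • x) (b • y)
  have h2 := gauge_add' hc h0 (a • (p - x)) (b • (q - y))
  rw [gauge_hom a ha, gauge_hom b hb] at h1 h2
  nlinarith [mul_lt_mul_of_pos_left hx' ha, mul_lt_mul_of_pos_left hy' hb]

theorem convex_lt (hc : Convex ℝ K) (h0 : K ∈ 𝓝 (0 : Fin n → ℝ)) :
    Convex ℝ {x | gauge K x < 1} := by
  have h1 : {x | gauge K x < 1} = interior K := setOfPred_gauge_lt_one_eq_interior hc h0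
  rw [h1]
  exact hc.interior

theorem concaveOn_log (hK : IsCompact K) (hc : Convex ℝ K) (h0 : K ∈ 𝓝 (0 : Fin n → ℝ)) :
    ConcaveOn ℝ {x | gauge K x < 1} (fun p => Real.log (volume (Fib K p)).toReal) := by
  refine ⟨convex_lt hc h0, ?_⟩
  intro p hp q hq a b ha hb hab
  simp only [smul_eq_mul]
  rcases eq_or_lt_of_le ha with h | ha'
  · have hb1 : b = 1 := by linarith
    rw [← h, hb1]; simp
  rcases eq_or_lt_of_le hb with h | hb'
  · have ha1 : a = 1 := by linarith
    rw [← h, ha1]; simp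
  have hpq : gauge K (a • p + b • q) < 1 := convex_lt hc h0 hp hq ha hb hab
  have hFp := volume_Fib_pos hc h0 hp
  have hFq := volume_Fib_pos hc h0 hq
  have hFpq := volume_Fib_pos hc h0 hpq
  have tp := volume_Fib_lt_top hK hc h0 p
  have tq := volume_Fib_lt_top hK hc h0 q
  have tpq := volume_Fib_lt_top hK hc h0 (a • p + b • q)
  have h1 := volume_Fib_mul hc h0 p q ha' hb' hab
  have h2 := ENNReal.toReal_mono tpq.ne h1
  rw [ENNReal.toReal_mul, ← ENNReal.toReal_rpow, ← ENNReal.toReal_rpow] at h2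
  have pp : 0 < (volume (Fib K p)).toReal := ENNReal.toReal_pos hFp.ne' tp.ne
  have pq : 0 < (volume (Fib K q)).toReal := ENNReal.toReal_pos hFq.ne' tq.ne
  have h3 := Real.log_le_log (by positivity) h2
  rw [Real.log_mul (by positivity) (by positivity), Real.log_rpow pp, Real.log_rpow pq] at h3
  exact h3

theorem exists_exp_bound (hK : IsCompact K) (hc : Convex ℝ K) (h0 : K ∈ 𝓝 (0 : Fin n → ℝ)) :
    ∃ l : (Fin n → ℝ) →L[ℝ] ℝ, ∀ p, gauge K p < 1 →
      (volume (Fib K p)).toReal ≤ (volume (Fib K 0)).toReal * Real.exp (l p) := by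
  have hopen : IsOpen {x | gauge K x < 1} := isOpen_lt (gauge_cont hc h0) continuous_const
  have hz : (0 : Fin n → ℝ) ∈ {x | gauge K x < 1} := by simp
  obtain ⟨l, hl⟩ := exists_supergradient hopen (concaveOn_log hK hc h0) hz
  refine ⟨l, fun p hp => ?_⟩
  have h1 := hl p hp
  rw [sub_zero] at h1
  have pp : 0 < (volume (Fib K p)).toReal :=
    ENNReal.toReal_pos (volume_Fib_pos hc h0 hp).ne' (volume_Fib_lt_top hK hc h0 p).ne
  have p0 : 0 < (volume (Fib K 0)).toReal :=
    ENNReal.toReal_pos (volume_Fib_pos hc h0 hz).ne' (volume_Fib_lt_top hK hc h0 0).ne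
  have h2 := Real.exp_le_exp.2 h1
  rwa [Real.exp_log pp, Real.exp_add, Real.exp_log p0] at h2

theorem one_sub_mul_exp_le (t : ℝ) : (1 - t) * Real.exp t ≤ 1 := by
  have h1 := Real.add_one_le_exp (-t)
  have h2 : (1 - t) * Real.exp t ≤ Real.exp (-t) * Real.exp t :=
    mul_le_mul_of_nonneg_right (by linarith) (Real.exp_pos t).le
  rwa [← Real.exp_add, neg_add_cancel, Real.exp_zero] at h2

/-- Integration over `W K` of a function of the sum. -/
theorem lintegral_W_sum (hc : Convex ℝ K) (h0 : K ∈ 𝓝 (0 : Fin n → ℝ))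
    {g : (Fin n → ℝ) → ℝ≥0∞} (hg : Measurable g) :
    ∫⁻ z in W K, g (z.1 + z.2) ∂(volume.prod volume) = ∫⁻ p, g p * volume (Fib K p) := by
  have hcont := gauge_cont hc h0
  let h : (Fin n → ℝ) × (Fin n → ℝ) → ℝ≥0∞ := fun z => (Fib K z.2).indicator (fun _ => g z.2) z.1
  have hset : MeasurableSet {z : (Fin n → ℝ) × (Fin n → ℝ) | gauge K z.1 + gauge K (z.2 - z.1) < 1} :=
    measurableSet_lt (by fun_prop) measurable_const
  have hh : h = {z : (Fin n → ℝ) × (Fin n → ℝ) | gauge K z.1 + gauge K (z.2 - z.1) < 1}.indicator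
      (fun z => g z.2) := by
    funext z
    by_cases hz : gauge K z.1 + gauge K (z.2 - z.1) < 1
    · rw [indicator_of_mem (show z ∈ {z : (Fin n → ℝ) × (Fin n → ℝ) |
        gauge K z.1 + gauge K (z.2 - z.1) < 1} from hz)]
      exact indicator_of_mem (show z.1 ∈ Fib K z.2 from hz) _
    · rw [indicator_of_notMem (show z ∉ {z : (Fin n → ℝ) × (Fin n → ℝ) |
        gauge K z.1 + gauge K (z.2 - z.1) < 1} from hz)]
      exact indicator_of_notMem (show z.1 ∉ Fib K z.2 from hz) _
  have hmeas : Measurable h := by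
    rw [hh]; exact (hg.comp measurable_snd).indicator hset
  have hmp := measurePreserving_prod_add (volume : Measure (Fin n → ℝ)) (volume : Measure (Fin n → ℝ))
  have e1 := hmp.lintegral_comp hmeas
  have e2 : ∀ z : (Fin n → ℝ) × (Fin n → ℝ), h (z.1, z.1 + z.2)
      = (W K).indicator (fun z => g (z.1 + z.2)) z := by
    intro z
    show (Fib K (z.1 + z.2)).indicator (fun _ => g (z.1 + z.2)) z.1 = _
    by_cases hz : z ∈ W K
    · have h1 : z.1 ∈ Fib K (z.1 + z.2) := by
        show gauge K z.1 + gauge K (z.1 + z.2 - z.1) < 1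
        rw [add_sub_cancel_left]; exact hz
      rw [indicator_of_mem hz, indicator_of_mem h1]
    · have h1 : z.1 ∉ Fib K (z.1 + z.2) := by
        intro hz'
        have hz'' : gauge K z.1 + gauge K (z.1 + z.2 - z.1) < 1 := hz'
        rw [add_sub_cancel_left] at hz''
        exact hz hz''
      rw [indicator_of_notMem hz, indicator_of_notMem h1]
  simp_rw [e2] at e1
  rw [lintegral_indicator (measurableSet_W hc h0)] at e1
  rw [e1, lintegral_prod_symm _ hmeas.aemeasurable]
  refine lintegral_congr fun p => ?_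
  show ∫⁻ x, (Fib K p).indicator (fun _ => g p) x = _
  rw [lintegral_indicator (isOpen_Fib hc h0 p).measurableSet, lintegral_const,
    Measure.restrict_apply MeasurableSet.univ, univ_inter]

end Pool.Agent.Lib.Helper13.Ehrhart
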