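import Mathlib
import Pool.Agent.Lib.Helper13.Ehrhart.Fiber

/-!
# `vol (W K) ≤ vol {N x + N (-x) < 1} * vol K` when the centroid of `K` is the origin
-/

open MeasureTheory Set
open scoped ENNReal Pointwise Topology

namespace Pool.Agent.Lib.Helper13.Ehrhart

variable {n : ℕ} {K : Set (Fin n → ℝ)}

theorem lt_subset (hc : Convex ℝ K) (h0 : K ∈ 𝓝 (0 : Fin n → ℝ)) :
    {x | gauge K x < 1} ⊆ K := by
  have h1 : {x | gauge K x < 1} = interior K := setOfPred_gauge_lt_one_eq_interior hc h0
  rw [h1]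
  exact interior_subset

theorem W_subset (hc : Convex ℝ K) (h0 : K ∈ 𝓝 (0 : Fin n → ℝ)) : W K ⊆ K ×ˢ K := by
  intro z hz
  have h : gauge K z.1 + gauge K z.2 < 1 := hz
  have h1 := gauge_nonneg (s := K) z.1
  have h2 := gauge_nonneg (s := K) z.2
  refine ⟨lt_subset hc h0 ?_, lt_subset hc h0 ?_⟩
  · show gauge K z.1 < 1
    linarith
  · show gauge K z.2 < 1
    linarith

theorem integrableOn_W (hK : IsCompact K) (hc : Convex ℝ K) (h0 : K ∈ 𝓝 (0 : Fin n → ℝ))
    {f : (Fin n → ℝ) × (Fin n → ℝ) → ℝ} (hf : Continuous f) :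
    IntegrableOn f (W K) (volume.prod volume) := by
  have := haarProd n
  exact (hf.continuousOn.integrableOn_compact (hK.prod hK)).mono_set (W_subset hc h0)

theorem lintegral_pos_eq_neg (hK : IsCompact K) (hc : Convex ℝ K) (h0 : K ∈ 𝓝 (0 : Fin n → ℝ))
    (l : (Fin n → ℝ) →L[ℝ] ℝ) (hl : ∫ x in K, l x = 0) :
    ∫⁻ x in {x | gauge K x < 1}, ENNReal.ofReal (l x)
      = ∫⁻ x in {x | gauge K x < 1}, ENNReal.ofReal (-l x) := by
  have h1 : {x | gauge K x < 1} = interior K := setOfPred_gauge_lt_one_eq_interior hc h0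
  have hint : IntegrableOn (fun x => l x) {x | gauge K x < 1} volume :=
    (l.continuous.continuousOn.integrableOn_compact hK).mono_set (lt_subset hc h0)
  have h2 : ∫ x in {x | gauge K x < 1}, l x = 0 := by
    rw [h1, ← hl]
    refine setIntegral_congr_set ?_
    exact interior_ae_eq_of_null_frontier (hc.addHaar_frontier volume)
  rw [integral_eq_lintegral_pos_part_sub_lintegral_neg_part hint] at h2
  have f1 : ∫⁻ x in {x | gauge K x < 1}, ENNReal.ofReal (l x) ≠ ⊤ :=
    (hint.lintegral_lt_top).ne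
  have f2 : ∫⁻ x in {x | gauge K x < 1}, ENNReal.ofReal (-l x) ≠ ⊤ :=
    (hint.neg.lintegral_lt_top).ne
  exact (ENNReal.toReal_eq_toReal_iff' f1 f2).1 (sub_eq_zero.1 h2)

theorem integral_W_fst (hK : IsCompact K) (hc : Convex ℝ K) (h0 : K ∈ 𝓝 (0 : Fin n → ℝ))
    (l : (Fin n → ℝ) →L[ℝ] ℝ) (hl : ∫ x in K, l x = 0) :
    ∫ z in W K, l z.1 ∂(volume.prod volume) = 0 := by
  have hint : IntegrableOn (fun z : (Fin n → ℝ) × (Fin n → ℝ) => l z.1) (W K) (volume.prod volume) :=
    integrableOn_W hK hc h0 (by fun_prop)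
  rw [integral_eq_lintegral_pos_part_sub_lintegral_neg_part hint, sub_eq_zero]
  congr 1
  have hl1 : Measurable fun x => ENNReal.ofReal (l x) := by fun_prop
  have hl2 : Measurable fun x => ENNReal.ofReal (-l x) := by fun_prop
  have e1 := lintegral_W hc h0 hl1 1 (fun r hr x => by
    rw [map_smul, smul_eq_mul, ENNReal.ofReal_mul hr.le, pow_one])
  have e2 := lintegral_W hc h0 hl2 1 (fun r hr x => by
    rw [map_smul, smul_eq_mul, ← mul_neg, ENNReal.ofReal_mul hr.le, pow_one])
  rw [lintegral_pos_eq_neg hK hc h0 l hl, ← e2] at e1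
  exact (ENNReal.mul_right_inj (factorial_ne_zero' _) (ENNReal.natCast_ne_top _)).1 e1

theorem integral_W_snd (hK : IsCompact K) (hc : Convex ℝ K) (h0 : K ∈ 𝓝 (0 : Fin n → ℝ))
    (l : (Fin n → ℝ) →L[ℝ] ℝ) (hl : ∫ x in K, l x = 0) :
    ∫ z in W K, l z.2 ∂(volume.prod volume) = 0 := by
  have hmp : MeasurePreserving (Prod.swap : (Fin n → ℝ) × (Fin n → ℝ) → _)
      (volume.prod volume) (volume.prod volume) :=
    Measure.measurePreserving_swap
  have h1 := hmp.setIntegral_preimage_emb (MeasurableEquiv.prodComm.measurableEmbedding)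
    (fun z => l z.1) (W K)
  have h2 : Prod.swap ⁻¹' (W K) = W K := by
    ext z
    show gauge K z.2 + gauge K z.1 < 1 ↔ gauge K z.1 + gauge K z.2 < 1
    rw [add_comm]
  rw [h2, integral_W_fst hK hc h0 l hl] at h1
  exact h1

theorem volume_W_le (hK : IsCompact K) (hc : Convex ℝ K) (h0 : K ∈ 𝓝 (0 : Fin n → ℝ))
    (hbar : ∫ x in K, x = 0) :
    (volume.prod volume) (W K) ≤ volume (Fib K 0) * volume K := by
  obtain ⟨l, hl⟩ := exists_exp_bound hK hc h0
  have hl0 : ∫ x in K, l x = 0 := by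
    have hi : IntegrableOn (fun x : Fin n → ℝ => x) K volume :=
      continuous_id.continuousOn.integrableOn_compact hK
    have := l.integral_comp_comm hi
    rw [hbar, map_zero] at this
    exact this
  have hg : Measurable fun p => ENNReal.ofReal (1 - l p) := by fun_prop
  have e1 := lintegral_W_sum hc h0 hg
  have e2 : ∫⁻ p, ENNReal.ofReal (1 - l p) * volume (Fib K p) ≤ volume (Fib K 0) * volume K := by
    have hms : MeasurableSet {x | gauge K x < 1} :=
      measurableSet_lt (gauge_cont hc h0).measurable measurable_const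
    rw [← volume_gauge_lt hc h0, ← setLIntegral_const, ← lintegral_indicator hms]
    refine lintegral_mono fun p => ?_
    by_cases hp : gauge K p < 1
    · rw [indicator_of_mem (show p ∈ {x | gauge K x < 1} from hp)]
      have h1 := hl p hp
      have tp := volume_Fib_lt_top hK hc h0 p
      have t0 := volume_Fib_lt_top hK hc h0 0
      rw [← ENNReal.ofReal_toReal tp.ne, ← ENNReal.ofReal_toReal t0.ne]
      by_cases h2 : 0 ≤ 1 - l p
      · rw [← ENNReal.ofReal_mul h2]
        refine ENNReal.ofReal_le_ofReal ?_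
        calc (1 - l p) * (volume (Fib K p)).toReal
            ≤ (1 - l p) * ((volume (Fib K 0)).toReal * Real.exp (l p)) :=
              mul_le_mul_of_nonneg_left h1 h2
          _ = (volume (Fib K 0)).toReal * ((1 - l p) * Real.exp (l p)) := by ring
          _ ≤ (volume (Fib K 0)).toReal * 1 :=
              mul_le_mul_of_nonneg_left (one_sub_mul_exp_le _) ENNReal.toReal_nonneg
          _ = _ := mul_one _
      · rw [ENNReal.ofReal_of_nonpos (by linarith), zero_mul]
        exact bot_le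
    · rw [volume_Fib_eq_zero hc h0 hp, mul_zero]
      exact bot_le
  rw [← e1] at e2
  have t0 := volume_Fib_lt_top hK hc h0 0
  have hfin : volume (Fib K 0) * volume K ≠ ⊤ := ENNReal.mul_ne_top t0.ne hK.measure_lt_top.ne
  have hWfin : (volume.prod volume) (W K) ≠ ⊤ := by
    have := haarProd n
    exact (lt_of_le_of_lt (measure_mono (W_subset hc h0)) (hK.prod hK).measure_lt_top).ne
  rw [← ENNReal.toReal_le_toReal hWfin hfin]
  refine le_trans ?_ (ENNReal.toReal_mono hfin e2)
  have hint : IntegrableOn (fun z : (Fin n → ℝ) × (Fin n → ℝ) => 1 - l (z.1 + z.2)) (W K)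
      (volume.prod volume) := integrableOn_W hK hc h0 (by fun_prop)
  have e3 : ∫ z in W K, (1 - l (z.1 + z.2)) ∂(volume.prod volume)
      = ((volume.prod volume) (W K)).toReal := by
    have hc1 : IntegrableOn (fun _ : (Fin n → ℝ) × (Fin n → ℝ) => (1 : ℝ)) (W K)
      (volume.prod volume) := integrableOn_W hK hc h0 continuous_const
    have hc2 : IntegrableOn (fun z : (Fin n → ℝ) × (Fin n → ℝ) => l z.1) (W K)
      (volume.prod volume) := integrableOn_W hK hc h0 (by fun_prop)
    have hc3 : IntegrableOn (fun z : (Fin n → ℝ) × (Fin n → ℝ) => l z.2) (W K)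
      (volume.prod volume) := integrableOn_W hK hc h0 (by fun_prop)
    have e4 : ∀ z : (Fin n → ℝ) × (Fin n → ℝ), 1 - l (z.1 + z.2) = 1 - (l z.1 + l z.2) := by
      intro z; rw [map_add]
    simp_rw [e4]
    have hc4 : IntegrableOn (fun z : (Fin n → ℝ) × (Fin n → ℝ) => l z.1 + l z.2) (W K)
      (volume.prod volume) := integrableOn_W hK hc h0 (by fun_prop)
    rw [integral_sub hc1 hc4, integral_add hc2 hc3, integral_W_fst hK hc h0 l hl0,
      integral_W_snd hK hc h0 l hl0, integral_const]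
    simp [Measure.real]
  rw [← e3, integral_eq_lintegral_pos_part_sub_lintegral_neg_part hint]
  have := ENNReal.toReal_nonneg
    (a := ∫⁻ z in W K, ENNReal.ofReal (-(1 - l (z.1 + z.2))) ∂(volume.prod volume))
  linarith

/-- The lattice-free inequality. -/
theorem volume_le_choose_mul (hK : IsCompact K) (hc : Convex ℝ K) (h0 : K ∈ 𝓝 (0 : Fin n → ℝ))
    (hbar : ∫ x in K, x = 0) :
    volume K ≤ (Nat.choose (2 * n) n : ℝ≥0∞) * volume (Fib K 0) := by
  have h1 := volume_W_le hK hc h0 hbar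
  have h2 := volume_W hc h0
  have hKfin : volume K ≠ ⊤ := hK.measure_lt_top.ne
  have hKpos : volume K ≠ 0 := by
    have : 0 < volume K := by
      have h3 : 0 < volume (interior K) :=
        isOpen_interior.measure_pos volume ⟨0, mem_interior_iff_mem_nhds.2 h0⟩
      exact lt_of_lt_of_le h3 (measure_mono interior_subset)
    exact this.ne'
  have h3 : ((n.factorial : ℝ≥0∞) * volume K) * ((n.factorial : ℝ≥0∞) * volume K)
      ≤ ((2 * n).factorial : ℝ≥0∞) * (volume (Fib K 0) * volume K) := by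
    rw [← h2]; gcongr
  have h4 : ((2 * n).factorial : ℝ≥0∞)
      = (Nat.choose (2 * n) n : ℝ≥0∞) * ((n.factorial : ℝ≥0∞) * (n.factorial : ℝ≥0∞)) := by
    have h5 := Nat.choose_mul_factorial_mul_factorial (show n ≤ 2 * n by omega)
    have h6 : 2 * n - n = n := by omega
    rw [h6] at h5
    rw [← h5]; push_cast; ring
  rw [h4] at h3
  have h5 : (volume K * ((n.factorial : ℝ≥0∞) * (n.factorial : ℝ≥0∞) * volume K))
      ≤ ((Nat.choose (2 * n) n : ℝ≥0∞) * volume (Fib K 0)) *
        ((n.factorial : ℝ≥0∞) * (n.factorial : ℝ≥0∞) * volume K) := by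
    calc _ = ((n.factorial : ℝ≥0∞) * volume K) * ((n.factorial : ℝ≥0∞) * volume K) := by ring
      _ ≤ _ := h3
      _ = _ := by ring
  refine (ENNReal.mul_le_mul_iff_left ?_ ?_).1 h5
  · exact mul_ne_zero (mul_ne_zero (factorial_ne_zero' _) (factorial_ne_zero' _)) hKpos
  · exact ENNReal.mul_ne_top (ENNReal.mul_ne_top (ENNReal.natCast_ne_top _)
      (ENNReal.natCast_ne_top _)) hKfin

end Pool.Agent.Lib.Helper13.Ehrhart
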