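import Mathlib
import Pool.Agent.Lib.Helper13.Ehrhart.Spingarn

/-!
# The lattice part: Minkowski's theorem for `{N x + N (-x) < 2}` and the barycentric scaling
-/

open MeasureTheory Set
open scoped ENNReal Pointwise Topology

namespace Pool.Agent.Lib.Helper13.Ehrhart

variable {n : ℕ} {K : Set (Fin n → ℝ)}

/-- If `0` is the only interior lattice point of `K`, the symmetric open convex set
`{N x + N (-x) < 2}` contains no nonzero lattice point, so its volume is at most `2 ^ n`. -/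
theorem volume_Fib_zero_le_one (hc : Convex ℝ K) (h0 : K ∈ 𝓝 (0 : Fin n → ℝ))
    (hlat : ∀ x ∈ interior K, (∀ i, ∃ z : ℤ, x i = (z : ℝ)) → x = 0) :
    volume (Fib K 0) ≤ 1 := by
  by_contra hcon
  rw [not_le] at hcon
  let C : Set (Fin n → ℝ) := (2 : ℝ) • Fib K 0
  have hC : ∀ x, x ∈ C ↔ gauge K x + gauge K (-x) < 2 := by
    intro x
    show x ∈ (2 : ℝ) • Fib K 0 ↔ _
    rw [mem_smul_set_iff_inv_smul_mem₀ (by norm_num : (2 : ℝ) ≠ 0)]
    show gauge K ((2 : ℝ)⁻¹ • x) + gauge K (0 - (2 : ℝ)⁻¹ • x) < 1 ↔ _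
    rw [zero_sub, ← smul_neg, gauge_hom _ (by norm_num), gauge_hom _ (by norm_num)]
    constructor <;> intro h <;> linarith
  have hvol : volume C = ENNReal.ofReal (2 ^ n) * volume (Fib K 0) := by
    show volume ((2 : ℝ) • Fib K 0) = _
    rw [Measure.addHaar_smul, Module.finrank_fin_fun, abs_of_pos (by positivity)]
  let b := Pi.basisFun ℝ (Fin n)
  have fund := ZSpan.isAddFundamentalDomain' b (volume : Measure (Fin n → ℝ))
  have hcnt : Countable (Submodule.span ℤ (Set.range b)).toAddSubgroup := by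
    show Countable (Submodule.span ℤ (Set.range b))
    infer_instance
  have hF : volume (ZSpan.fundamentalDomain b) = 1 := by
    rw [ZSpan.fundamentalDomain_pi_basisFun, volume_pi, Measure.pi_pi]
    simp
  have hsymm : ∀ x ∈ C, -x ∈ C := by
    intro x hx
    rw [hC] at hx ⊢
    rw [neg_neg]; linarith
  have hconv : Convex ℝ C := by
    intro x hx y hy s t hs ht hst
    rw [hC] at hx hy ⊢
    have e1 : -(s • x + t • y) = s • (-x) + t • (-y) := by
      rw [smul_neg, smul_neg]; abel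
    have h1 := gauge_add' hc h0 (s • x) (t • y)
    have h2 := gauge_add' hc h0 (s • (-x)) (t • (-y))
    rw [gauge_smul_of_nonneg hs, gauge_smul_of_nonneg ht] at h1 h2
    simp only [smul_eq_mul] at h1 h2
    rw [e1]
    rcases eq_or_lt_of_le hs with h | h
    · have ht1 : t = 1 := by linarith
      rw [← h, ht1] at h1 h2 ⊢
      linarith
    · nlinarith [mul_lt_mul_of_pos_left hx h, mul_le_mul_of_nonneg_left hy.le ht]
  have hbig : volume (ZSpan.fundamentalDomain b) * 2 ^ Module.finrank ℝ (Fin n → ℝ) < volume C := by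
    rw [hF, one_mul, Module.finrank_fin_fun, hvol]
    have h2 : ENNReal.ofReal (2 ^ n) = 2 ^ n := by
      rw [ENNReal.ofReal_pow (by norm_num)]; norm_num
    rw [h2]
    calc (2 : ℝ≥0∞) ^ n = 2 ^ n * 1 := (mul_one _).symm
      _ < 2 ^ n * volume (Fib K 0) :=
        (ENNReal.mul_lt_mul_iff_right (by positivity) (by finiteness)).2 hcon
  obtain ⟨z, hz0, hzC⟩ := exists_ne_zero_mem_lattice_of_measure_mul_two_pow_lt_measure fund hsymm
    hconv hbig
  have hzint : ∀ i, ∃ m : ℤ, (z : Fin n → ℝ) i = (m : ℝ) := by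
    intro i
    have h1 := (b.mem_span_iff_repr_mem ℤ (z : Fin n → ℝ)).1 z.2 i
    obtain ⟨m, hm⟩ := h1
    refine ⟨m, ?_⟩
    rw [Pi.basisFun_repr] at hm
    rw [← hm]; simp
  have hzne : (z : Fin n → ℝ) ≠ 0 := fun h => hz0 (Subtype.ext h)
  rw [hC] at hzC
  by_cases h1 : gauge K (z : Fin n → ℝ) < 1
  · exact hzne (hlat _ ((gauge_lt_one_iff_mem_interior hc h0).1 h1) hzint)
  · have h2 : gauge K (-(z : Fin n → ℝ)) < 1 := by
      rw [not_lt] at h1; linarith
    have h3 := hlat _ ((gauge_lt_one_iff_mem_interior hc h0).1 h2) (fun i => by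
      obtain ⟨m, hm⟩ := hzint i
      exact ⟨-m, by rw [Pi.neg_apply, hm]; push_cast; ring⟩)
    exact hzne (neg_eq_zero.1 h3)

/-- The barycentric case. -/
theorem volume_le_choose (hK : IsCompact K) (hc : Convex ℝ K) (h0 : K ∈ 𝓝 (0 : Fin n → ℝ))
    (hbar : ∫ x in K, x = 0)
    (hlat : ∀ x ∈ interior K, (∀ i, ∃ z : ℤ, x i = (z : ℝ)) → x = 0) :
    (volume K).toReal ≤ (Nat.choose (2 * n) n : ℝ) := by
  have h1 := volume_le_choose_mul hK hc h0 hbar
  have h2 := volume_Fib_zero_le_one hc h0 hlat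
  have h3 : volume K ≤ (Nat.choose (2 * n) n : ℝ≥0∞) :=
    h1.trans ((mul_le_mul_right h2 _).trans (mul_one _).le)
  have h4 := ENNReal.toReal_mono (ENNReal.natCast_ne_top _) h3
  simpa using h4

end Pool.Agent.Lib.Helper13.Ehrhart
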