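import Mathlib
import Pool.Agent.Lib.Helper13.Ehrhart.ConeLaplace
import Pool.Agent.Lib.Helper13.Ehrhart.Lattice

/-!
# The cone over a convex body with centroid at the origin
-/

open MeasureTheory Set
open scoped ENNReal Pointwise Topology

namespace Pool.Agent.Lib.Helper13.Ehrhart

variable {n : ℕ} {K : Set (Fin n → ℝ)}

/-- The open cone over `K`. -/
def KC (K : Set (Fin n → ℝ)) : Set (ℝ × (Fin n → ℝ)) := {p | gauge K p.2 < p.1}

theorem volume_gauge_lt_r (hc : Convex ℝ K) (h0 : K ∈ 𝓝 (0 : Fin n → ℝ)) (r : ℝ) (hr : 0 < r) :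
    volume {x | gauge K x < r} = ENNReal.ofReal (r ^ n) * volume K := by
  have hcont := gauge_cont hc h0
  have h := setLIntegral_lt_scale (volume : Measure (Fin n → ℝ)) hcont.measurable
    (fun r hr x => gauge_hom r hr x) (φ := fun _ => 1) measurable_const 0
    (fun r hr x => by simp) r hr
  rw [Module.finrank_fin_fun, zero_add] at h
  simp only [lintegral_const, one_mul, Measure.restrict_apply MeasurableSet.univ, univ_inter] at h
  rw [h, volume_gauge_lt hc h0]

theorem isOpen_KC (hc : Convex ℝ K) (h0 : K ∈ 𝓝 (0 : Fin n → ℝ)) : IsOpen (KC K) := by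
  have h := gauge_cont hc h0
  exact isOpen_lt (by fun_prop) (by fun_prop)

theorem isCone_KC (hK : IsCompact K) (hc : Convex ℝ K) (h0 : K ∈ 𝓝 (0 : Fin n → ℝ)) :
    IsCone (KC K) where
  isOpen := isOpen_KC hc h0
  add_mem := by
    intro x hx y hy
    have h1 : gauge K x.2 < x.1 := hx
    have h2 : gauge K y.2 < y.1 := hy
    have h3 := gauge_add' hc h0 x.2 y.2
    show gauge K (x.2 + y.2) < x.1 + y.1
    linarith
  smul_mem := by
    intro r hr x hx
    have h1 : gauge K x.2 < x.1 := hx
    show gauge K (r • x.2) < r * x.1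
    rw [gauge_hom r hr]
    nlinarith
  finite := by
    intro w
    by_cases hw : 0 < w.1
    · have hsub : {y | y ∈ KC K ∧ w - y ∈ KC K} ⊆ Ioo 0 w.1 ×ˢ {x | gauge K x < w.1} := by
        rintro y ⟨h1, h2⟩
        have h1' : gauge K y.2 < y.1 := h1
        have h2' : gauge K (w.2 - y.2) < w.1 - y.1 := h2
        have h3 := gauge_nonneg (s := K) y.2
        have h4 := gauge_nonneg (s := K) (w.2 - y.2)
        refine ⟨⟨by linarith, by linarith⟩, ?_⟩
        show gauge K y.2 < w.1
        linarith
      refine lt_of_le_of_lt (measure_mono hsub) ?_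
      rw [Measure.volume_eq_prod, Measure.prod_prod, Real.volume_Ioo,
        volume_gauge_lt_r hc h0 _ hw]
      exact ENNReal.mul_lt_top ENNReal.ofReal_lt_top
        (ENNReal.mul_lt_top ENNReal.ofReal_lt_top hK.measure_lt_top)
    · have : {y | y ∈ KC K ∧ w - y ∈ KC K} = ∅ := by
        rw [eq_empty_iff_forall_notMem]
        rintro y ⟨h1, h2⟩
        have h1' : gauge K y.2 < y.1 := h1
        have h2' : gauge K (w.2 - y.2) < w.1 - y.1 := h2
        have h3 := gauge_nonneg (s := K) y.2
        have h4 := gauge_nonneg (s := K) (w.2 - y.2)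
        rw [not_lt] at hw
        linarith
      rw [this, measure_empty]
      exact ENNReal.zero_lt_top

theorem one_mem_KC : ((1, 0) : ℝ × (Fin n → ℝ)) ∈ KC K := by
  show gauge K 0 < 1
  rw [gauge_zero]; exact one_pos

/-- The volume of the order interval `[0, (1, 0)]`. -/
theorem V_KC (hK : IsCompact K) (hc : Convex ℝ K) (h0 : K ∈ 𝓝 (0 : Fin n → ℝ)) :
    ((n + 1 : ℕ) : ℝ≥0∞) * V (KC K) (1, 0) = volume (Fib K 0) := by
  have hcont := gauge_cont hc h0
  have hgc : Continuous fun x : Fin n → ℝ => gauge K x + gauge K (0 - x) := by fun_prop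
  have hopen := (isCone_KC hK hc h0).isOpen_interval (1, 0)
  have e1 : V (KC K) (1, 0) = ∫⁻ x : Fin n → ℝ, ENNReal.ofReal (1 - (gauge K x + gauge K (0 - x))) := by
    rw [V, Measure.volume_eq_prod, Measure.prod_apply_symm hopen.measurableSet]
    refine lintegral_congr fun x => ?_
    have e2 : (fun t : ℝ => (t, x)) ⁻¹' {y | y ∈ KC K ∧ ((1, 0) : ℝ × (Fin n → ℝ)) - y ∈ KC K}
        = Ioo (gauge K x) (1 - gauge K (0 - x)) := by
      ext t
      show (gauge K x < t ∧ gauge K (0 - x) < 1 - t) ↔ _
      rw [mem_Ioo]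
      constructor
      · rintro ⟨h1, h2⟩; exact ⟨h1, by linarith⟩
      · rintro ⟨h1, h2⟩; exact ⟨h1, by linarith⟩
    rw [e2, Real.volume_Ioo]
    congr 1
    ring
  have hms : MeasurableSet {x : Fin n → ℝ | gauge K x + gauge K (0 - x) < 1} :=
    measurableSet_lt hgc.measurable measurable_const
  have hfin : volume (Fib K 0) ≠ ⊤ := (volume_Fib_lt_top hK hc h0 0).ne
  have hmom := moment_eq (μ := (volume : Measure (Fin n → ℝ)))
    (M := fun x => gauge K x + gauge K (0 - x)) hgc.measurable
    (fun x => add_nonneg (gauge_nonneg _) (gauge_nonneg _)) (φ := fun _ => 1) measurable_const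
    n 0 (volume (Fib K 0)) hfin (by
      intro r hr
      have h := setLIntegral_lt_scale (volume : Measure (Fin n → ℝ)) hgc.measurable
        (fun r hr x => by
          show gauge K (r • x) + gauge K (0 - r • x) = _
          have : (0 : Fin n → ℝ) - r • x = r • (0 - x) := by
            rw [zero_sub, zero_sub, smul_neg]
          rw [this, gauge_hom r hr, gauge_hom r hr]; ring)
        (φ := fun _ => 1) measurable_const 0 (fun r hr x => by simp) r hr
      rw [Module.finrank_fin_fun, zero_add] at h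
      rw [h]
      congr 1
      simp only [lintegral_const, one_mul, Measure.restrict_apply MeasurableSet.univ, univ_inter]
      rfl)
  simp only [one_mul, zero_add, pow_one, add_zero] at hmom
  set I := ∫⁻ x in {x : Fin n → ℝ | gauge K x + gauge K (0 - x) < 1},
    ENNReal.ofReal (gauge K x + gauge K (0 - x)) with hI
  have e3 : V (KC K) (1, 0) + I = volume (Fib K 0) := by
    have e4 : V (KC K) (1, 0) = ∫⁻ x in {x : Fin n → ℝ | gauge K x + gauge K (0 - x) < 1},
        ENNReal.ofReal (1 - (gauge K x + gauge K (0 - x))) := by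
      rw [e1, ← lintegral_indicator hms]
      refine lintegral_congr fun x => ?_
      by_cases hx : gauge K x + gauge K (0 - x) < 1
      · rw [indicator_of_mem (show x ∈ {x : Fin n → ℝ | gauge K x + gauge K (0 - x) < 1} from hx)]
      · rw [indicator_of_notMem
          (show x ∉ {x : Fin n → ℝ | gauge K x + gauge K (0 - x) < 1} from hx)]
        rw [not_lt] at hx
        exact ENNReal.ofReal_of_nonpos (by linarith)
    rw [e4, hI, ← lintegral_add_left (by fun_prop)]
    have e5 : ∫⁻ x in {x : Fin n → ℝ | gauge K x + gauge K (0 - x) < 1},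
        (ENNReal.ofReal (1 - (gauge K x + gauge K (0 - x))) +
          ENNReal.ofReal (gauge K x + gauge K (0 - x)))
        = ∫⁻ x in {x : Fin n → ℝ | gauge K x + gauge K (0 - x) < 1}, 1 := by
      refine setLIntegral_congr_fun hms fun x hx => ?_
      have hx1 : gauge K x + gauge K (0 - x) < 1 := hx
      have hx0 : 0 ≤ gauge K x + gauge K (0 - x) := add_nonneg (gauge_nonneg _) (gauge_nonneg _)
      rw [← ENNReal.ofReal_add (by linarith) hx0, sub_add_cancel, ENNReal.ofReal_one]
    rw [e5]
    simp only [lintegral_const, one_mul, Measure.restrict_apply MeasurableSet.univ, univ_inter]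
    rfl
  have h6 : ((n + 1 : ℕ) : ℝ≥0∞) * V (KC K) (1, 0) + (n : ℝ≥0∞) * volume (Fib K 0)
      = volume (Fib K 0) + (n : ℝ≥0∞) * volume (Fib K 0) := by
    have h7 : ((n + 1 : ℕ) : ℝ≥0∞) * V (KC K) (1, 0) + ((n + 1 : ℕ) : ℝ≥0∞) * I
        = ((n + 1 : ℕ) : ℝ≥0∞) * volume (Fib K 0) := by
      rw [← mul_add, e3]
    rw [hmom] at h7
    rw [h7]
    push_cast
    ring
  exact (ENNReal.add_left_inj (ENNReal.mul_ne_top (ENNReal.natCast_ne_top _) hfin)).1 h6

end Pool.Agent.Lib.Helper13.Ehrhart
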