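import Mathlib
import Pool.Agent.Lib.Helper13.Ehrhart.ConeBody

/-!
# The bound `2ⁿ⁺¹ vol K ≤ binom (3n+2) (n+1)` for a convex body with centroid `0` and no other
interior lattice point
-/

open MeasureTheory Set
open scoped ENNReal Pointwise Topology

namespace Pool.Agent.Lib.Helper13.Ehrhart

variable {n : ℕ} {K : Set (Fin n → ℝ)}

theorem one_add_ofReal_neg_le (s : ℝ) :
    1 + ENNReal.ofReal (-s) ≤ ENNReal.ofReal (Real.exp (-s)) + ENNReal.ofReal s := by
  have h1 := Real.add_one_le_exp (-s)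
  rcases le_total 0 s with hs | hs
  · rw [ENNReal.ofReal_of_nonpos (show -s ≤ 0 by linarith), add_zero,
      ← ENNReal.ofReal_add (Real.exp_pos _).le hs, ← ENNReal.ofReal_one]
    exact ENNReal.ofReal_le_ofReal (by linarith)
  · rw [ENNReal.ofReal_of_nonpos hs, add_zero, ← ENNReal.ofReal_one,
      ← ENNReal.ofReal_add zero_le_one (by linarith)]
    exact ENNReal.ofReal_le_ofReal (by linarith)

/-- Jensen's inequality on a slice. -/
theorem slice_ge (hK : IsCompact K) (hc : Convex ℝ K) (h0 : K ∈ 𝓝 (0 : Fin n → ℝ))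
    (l : (Fin n → ℝ) →L[ℝ] ℝ) (hl : ∫ x in K, l x = 0) (t : ℝ) (ht : 0 < t) :
    volume {x | gauge K x < t} ≤ ∫⁻ x in {x | gauge K x < t}, ENNReal.ofReal (Real.exp (-l x)) := by
  have hcont := gauge_cont hc h0
  have hsc : ∀ φ : (Fin n → ℝ) → ℝ≥0∞, Measurable φ →
      (∀ r : ℝ, 0 < r → ∀ x, φ (r • x) = ENNReal.ofReal (r ^ 1) * φ x) →
      ∫⁻ x in {x | gauge K x < t}, φ x
        = ENNReal.ofReal (t ^ (1 + n)) * ∫⁻ x in {x | gauge K x < 1}, φ x := by
    intro φ hφ hφh
    have h := setLIntegral_lt_scale (volume : Measure (Fin n → ℝ)) hcont.measurable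
      (fun r hr x => gauge_hom r hr x) hφ 1 hφh t ht
    rw [Module.finrank_fin_fun] at h
    exact h
  have e1 := hsc (fun x => ENNReal.ofReal (l x)) (by fun_prop) (fun r hr x => by
    rw [map_smul, smul_eq_mul, ENNReal.ofReal_mul hr.le, pow_one])
  have e2 := hsc (fun x => ENNReal.ofReal (-l x)) (by fun_prop) (fun r hr x => by
    rw [map_smul, smul_eq_mul, ← mul_neg, ENNReal.ofReal_mul hr.le, pow_one])
  have hint : IntegrableOn (fun x => l x) {x | gauge K x < 1} volume :=
    (l.continuous.continuousOn.integrableOn_compact hK).mono_set (lt_subset hc h0)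
  have f1 : ∫⁻ x in {x | gauge K x < 1}, ENNReal.ofReal (l x) ≠ ⊤ := (hint.lintegral_lt_top).ne
  have f2 : ∫⁻ x in {x | gauge K x < t}, ENNReal.ofReal (l x) ≠ ⊤ := by
    rw [e1]; exact ENNReal.mul_ne_top ENNReal.ofReal_ne_top f1
  have e3 : ∫⁻ x in {x | gauge K x < t}, ENNReal.ofReal (l x)
      = ∫⁻ x in {x | gauge K x < t}, ENNReal.ofReal (-l x) := by
    rw [e1, e2, lintegral_pos_eq_neg hK hc h0 l hl]
  have h1 : ∫⁻ x in {x | gauge K x < t}, (1 + ENNReal.ofReal (-l x))
      ≤ ∫⁻ x in {x | gauge K x < t},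
        (ENNReal.ofReal (Real.exp (-l x)) + ENNReal.ofReal (l x)) :=
    lintegral_mono fun x => one_add_ofReal_neg_le (l x)
  rw [lintegral_add_left measurable_const, lintegral_add_left (by fun_prop), ← e3] at h1
  simp only [lintegral_const, one_mul, Measure.restrict_apply MeasurableSet.univ, univ_inter] at h1
  exact (ENNReal.add_le_add_iff_right f2).1 h1

theorem lintegral_exp_pow_scale (n : ℕ) (a : ℝ) (ha : 0 < a) :
    ENNReal.ofReal (a ^ (n + 1)) *
      ∫⁻ t in Ioi (0 : ℝ), ENNReal.ofReal (Real.exp (-(a * t))) * ENNReal.ofReal (t ^ n)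
      = (n.factorial : ℝ≥0∞) := by
  let G : ℝ → ℝ≥0∞ := (Ioi (0 : ℝ)).indicator
    fun s => ENNReal.ofReal (Real.exp (-s)) * ENNReal.ofReal (s ^ n)
  have hG : Measurable G := Measurable.indicator (by fun_prop) measurableSet_Ioi
  have h1 := lintegral_comp_smul' (volume : Measure ℝ) hG ha
  rw [Module.finrank_self, pow_one] at h1
  have h2 : ∫⁻ s, G s = (n.factorial : ℝ≥0∞) := by
    rw [lintegral_indicator measurableSet_Ioi]
    exact lintegral_exp_pow n
  have h3 : ∫⁻ t, G (a • t) = ENNReal.ofReal (a ^ n) *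
      ∫⁻ t in Ioi (0 : ℝ), ENNReal.ofReal (Real.exp (-(a * t))) * ENNReal.ofReal (t ^ n) := by
    rw [← lintegral_const_mul _ (by fun_prop), ← lintegral_indicator measurableSet_Ioi]
    refine lintegral_congr fun t => ?_
    by_cases h : 0 < t
    · have h' : a • t ∈ Ioi (0 : ℝ) := by
        show 0 < a * t
        positivity
      show (Ioi (0 : ℝ)).indicator _ (a • t) = _
      rw [indicator_of_mem h', indicator_of_mem (show t ∈ Ioi (0 : ℝ) from h), smul_eq_mul,
        mul_pow, ENNReal.ofReal_mul (by positivity)]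
      ring
    · have h' : a • t ∉ Ioi (0 : ℝ) := by
        intro hh
        have hh' : 0 < a * t := hh
        exact h (pos_of_mul_pos_right hh' ha.le)
      show (Ioi (0 : ℝ)).indicator _ (a • t) = _
      rw [indicator_of_notMem h', indicator_of_notMem (show t ∉ Ioi (0 : ℝ) from h)]
  rw [h2, h3] at h1
  have h4 : ENNReal.ofReal a * ENNReal.ofReal (a⁻¹) = 1 := by
    rw [← ENNReal.ofReal_mul ha.le, mul_inv_cancel₀ ha.ne', ENNReal.ofReal_one]
  calc ENNReal.ofReal (a ^ (n + 1)) *
        ∫⁻ t in Ioi (0 : ℝ), ENNReal.ofReal (Real.exp (-(a * t))) * ENNReal.ofReal (t ^ n)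
      = ENNReal.ofReal a * (ENNReal.ofReal (a ^ n) *
        ∫⁻ t in Ioi (0 : ℝ), ENNReal.ofReal (Real.exp (-(a * t))) * ENNReal.ofReal (t ^ n)) := by
        rw [← mul_assoc, ← ENNReal.ofReal_mul ha.le]
        congr 2
        ring
    _ = (n.factorial : ℝ≥0∞) := by rw [h1, ← mul_assoc, h4, one_mul]

theorem psi_KC_eq (hc : Convex ℝ K) (h0 : K ∈ 𝓝 (0 : Fin n → ℝ))
    (l : (ℝ × (Fin n → ℝ)) →L[ℝ] ℝ) :
    psi (KC K) l = ∫⁻ t : ℝ, ∫⁻ x : Fin n → ℝ, wt (KC K) l 1 (t, x) := by
  have hm : Measurable (wt (KC K) l 1) :=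
    Measurable.indicator (by fun_prop) (isOpen_KC hc h0).measurableSet
  rw [psi, Measure.volume_eq_prod, lintegral_prod _ hm.aemeasurable]

/-- Lower bound for the Laplace transform of the cone. -/
theorem psi_ge (hK : IsCompact K) (hc : Convex ℝ K) (h0 : K ∈ 𝓝 (0 : Fin n → ℝ))
    (hbar : ∫ x in K, x = 0) (l : (ℝ × (Fin n → ℝ)) →L[ℝ] ℝ)
    (hl : ∀ p ∈ KC K, 0 < l p) (ha : 0 < l (1, 0)) :
    (n.factorial : ℝ≥0∞) * volume K ≤ ENNReal.ofReal (l (1, 0) ^ (n + 1)) * psi (KC K) l := by
  set a := l (1, 0) with hadef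
  set l₁ : (Fin n → ℝ) →L[ℝ] ℝ := l.comp (ContinuousLinearMap.inr ℝ ℝ (Fin n → ℝ)) with hl₁
  have hdec : ∀ t x, l (t, x) = a * t + l₁ x := by
    intro t x
    have : ((t, x) : ℝ × (Fin n → ℝ)) = t • (1, 0) + (0, x) := by
      ext <;> simp
    rw [this, map_add, map_smul, smul_eq_mul, mul_comm]
    rfl
  have hl₁0 : ∫ x in K, l₁ x = 0 := by
    have hi : IntegrableOn (fun x : Fin n → ℝ => x) K volume :=
      continuous_id.continuousOn.integrableOn_compact hK
    have := l₁.integral_comp_comm hi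
    rw [hbar, map_zero] at this
    exact this
  have hcont := gauge_cont hc h0
  have hslice : ∀ t : ℝ, (Ioi (0 : ℝ)).indicator (fun t =>
      ENNReal.ofReal (Real.exp (-(a * t))) * ENNReal.ofReal (t ^ n) * volume K) t
      ≤ ∫⁻ x : Fin n → ℝ, wt (KC K) l 1 (t, x) := by
    intro t
    by_cases ht : 0 < t
    · rw [indicator_of_mem (show t ∈ Ioi (0 : ℝ) from ht)]
      have hms : MeasurableSet {x | gauge K x < t} :=
        measurableSet_lt hcont.measurable measurable_const
      have e1 : ∫⁻ x : Fin n → ℝ, wt (KC K) l 1 (t, x)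
          = ENNReal.ofReal (Real.exp (-(a * t))) *
            ∫⁻ x in {x | gauge K x < t}, ENNReal.ofReal (Real.exp (-l₁ x)) := by
        rw [← lintegral_const_mul _ (by fun_prop), ← lintegral_indicator hms]
        refine lintegral_congr fun x => ?_
        by_cases hx : gauge K x < t
        · rw [indicator_of_mem (show x ∈ {x | gauge K x < t} from hx), wt,
            indicator_of_mem (show (t, x) ∈ KC K from hx), one_mul,
            abs_of_pos (hl _ (show (t, x) ∈ KC K from hx)), hdec,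
            ← ENNReal.ofReal_mul (Real.exp_pos _).le, ← Real.exp_add]
          congr 2
          ring
        · rw [indicator_of_notMem (show x ∉ {x | gauge K x < t} from hx), wt,
            indicator_of_notMem (show (t, x) ∉ KC K from hx)]
      rw [e1, mul_assoc, ← volume_gauge_lt_r hc h0 t ht]
      gcongr
      exact slice_ge hK hc h0 l₁ hl₁0 t ht
    · rw [indicator_of_notMem (show t ∉ Ioi (0 : ℝ) from ht)]
      exact bot_le
  have h1 := lintegral_mono (μ := (volume : Measure ℝ)) hslice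
  rw [← psi_KC_eq hc h0, lintegral_indicator measurableSet_Ioi,
    lintegral_mul_const _ (by fun_prop)] at h1
  calc (n.factorial : ℝ≥0∞) * volume K
      = ENNReal.ofReal (a ^ (n + 1)) * ((∫⁻ t in Ioi (0 : ℝ),
        ENNReal.ofReal (Real.exp (-(a * t))) * ENNReal.ofReal (t ^ n)) * volume K) := by
        rw [← mul_assoc, lintegral_exp_pow_scale n a ha]
    _ ≤ _ := by gcongr

/-- Finiteness of the Laplace transform. -/
theorem psi_lt_top (hK : IsCompact K) (hc : Convex ℝ K) (h0 : K ∈ 𝓝 (0 : Fin n → ℝ))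
    (l : (ℝ × (Fin n → ℝ)) →L[ℝ] ℝ) (ε : ℝ) (hε : 0 < ε) (hl : ∀ p ∈ KC K, ε * p.1 ≤ l p) :
    psi (KC K) l ≠ ⊤ := by
  have hcont := gauge_cont hc h0
  have hslice : ∀ t : ℝ, ∫⁻ x : Fin n → ℝ, wt (KC K) l 1 (t, x)
      ≤ (Ioi (0 : ℝ)).indicator (fun t =>
        ENNReal.ofReal (Real.exp (-(ε * t))) * ENNReal.ofReal (t ^ n) * volume K) t := by
    intro t
    have hms : MeasurableSet {x | gauge K x < t} :=
      measurableSet_lt hcont.measurable measurable_const
    by_cases ht : 0 < t
    · rw [indicator_of_mem (show t ∈ Ioi (0 : ℝ) from ht), mul_assoc,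
        ← volume_gauge_lt_r hc h0 t ht, ← setLIntegral_const, ← lintegral_indicator hms]
      refine lintegral_mono fun x => ?_
      by_cases hx : gauge K x < t
      · rw [indicator_of_mem (show x ∈ {x | gauge K x < t} from hx), wt,
          indicator_of_mem (show (t, x) ∈ KC K from hx), one_mul]
        refine ENNReal.ofReal_le_ofReal (Real.exp_le_exp.2 ?_)
        have h1 := hl (t, x) hx
        have h2 := le_abs_self (l (t, x))
        simp only at h1
        linarith
      · rw [indicator_of_notMem (show x ∉ {x | gauge K x < t} from hx), wt,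
          indicator_of_notMem (show (t, x) ∉ KC K from hx)]
    · rw [indicator_of_notMem (show t ∉ Ioi (0 : ℝ) from ht)]
      refine le_of_eq ?_
      rw [lintegral_eq_zero_iff' (by
        refine Measurable.aemeasurable ?_
        exact (Measurable.indicator (by fun_prop) (isOpen_KC hc h0).measurableSet).comp
          (by fun_prop : Measurable fun x : Fin n → ℝ => (t, x)))]
      refine Filter.Eventually.of_forall fun x => ?_
      have hx : (t, x) ∉ KC K := by
        intro hh
        have hh' : gauge K x < t := hh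
        have := gauge_nonneg (s := K) x
        linarith
      simp only [Pi.zero_apply]
      rw [wt, indicator_of_notMem hx]
  have h1 := lintegral_mono (μ := (volume : Measure ℝ)) hslice
  rw [← psi_KC_eq hc h0, lintegral_indicator measurableSet_Ioi,
    lintegral_mul_const _ (by fun_prop)] at h1
  refine ne_top_of_le_ne_top ?_ h1
  refine ENNReal.mul_ne_top ?_ hK.measure_lt_top.ne
  intro htop
  have h2 := lintegral_exp_pow_scale n ε hε
  rw [htop, ENNReal.mul_top (by
    rw [Ne, ENNReal.ofReal_eq_zero, not_le]; positivity)] at h2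
  exact ENNReal.top_ne_natCast _ h2

end Pool.Agent.Lib.Helper13.Ehrhart
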