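import Mathlib
import Pool.Agent.Lib.Helper13.Ehrhart.Lattice

/-!
# Reduction of the general case to the barycentric one by a homothety
-/

open MeasureTheory Set
open scoped ENNReal Pointwise Topology

namespace Pool.Agent.Lib.Helper13.Ehrhart

variable {n : ℕ} {K : Set (Fin n → ℝ)}

/-- The centroid of a convex body lies in its interior. -/
theorem centroid_mem_interior (hK : IsCompact K) (hc : Convex ℝ K) (hne : (interior K).Nonempty) :
    (volume K).toReal⁻¹ • (∫ x in K, x) ∈ interior K := by
  by_contra hb
  obtain ⟨f, hf⟩ := geometric_hahn_banach_open_point hc.interior isOpen_interior hb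
  set b := (volume K).toReal⁻¹ • (∫ x in K, x) with hbdef
  have hposI : 0 < volume (interior K) := isOpen_interior.measure_pos volume hne
  have hpos : 0 < volume K := lt_of_lt_of_le hposI (measure_mono interior_subset)
  have hfin : volume K < ⊤ := hK.measure_lt_top
  have hreal : 0 < (volume K).toReal := ENNReal.toReal_pos hpos.ne' hfin.ne
  have hi : IntegrableOn (fun x : Fin n → ℝ => x) K volume :=
    continuous_id.continuousOn.integrableOn_compact hK
  have hif : IntegrableOn (fun x : Fin n → ℝ => f b - f x) K volume :=
    (by fun_prop : Continuous fun x : Fin n → ℝ => f b - f x).continuousOn.integrableOn_compact hK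
  have hif2 : IntegrableOn (fun x : Fin n → ℝ => f x) K volume :=
    (by fun_prop : Continuous fun x : Fin n → ℝ => f x).continuousOn.integrableOn_compact hK
  have hic : IntegrableOn (fun _ : Fin n → ℝ => f b) K volume :=
    continuous_const.continuousOn.integrableOn_compact hK
  have h1 : ∫ x in K, (f b - f x) = 0 := by
    rw [integral_sub hic hif2, integral_const]
    have h2 : ∫ x in K, f x = f (∫ x in K, x) := f.integral_comp_comm hi
    rw [h2]
    have h3 : f b = (volume K).toReal⁻¹ * f (∫ x in K, x) := by
      rw [hbdef, map_smul, smul_eq_mul]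
    rw [h3]
    simp only [Measure.real, Measure.restrict_apply MeasurableSet.univ, univ_inter, smul_eq_mul]
    field_simp
    ring
  have h4 : ∫ x in interior K, (f b - f x) = 0 := by
    rw [← h1]
    exact setIntegral_congr_set (interior_ae_eq_of_null_frontier (hc.addHaar_frontier volume))
  have h5 : 0 < ∫ x in interior K, (f b - f x) := by
    rw [setIntegral_pos_iff_support_of_nonneg_ae]
    · refine lt_of_lt_of_le hposI (measure_mono fun x hx => ⟨?_, hx⟩)
      rw [Function.mem_support]
      have := hf x hx
      linarith
    · refine (ae_restrict_iff' isOpen_interior.measurableSet).2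
        (Filter.Eventually.of_forall fun x hx => ?_)
      have := hf x hx
      simp only [Pi.zero_apply]
      linarith
    · exact hif.mono_set interior_subset
  linarith

theorem det_smul_id (R : ℝ) :
    (R • ContinuousLinearMap.id ℝ (Fin n → ℝ)).det = R ^ n := by
  rw [ContinuousLinearMap.det]
  simp

/-- Integrals over a homothetic copy. -/
theorem setIntegral_homothety (hKm : MeasurableSet K) (a : Fin n → ℝ) {R : ℝ} (hR : 0 < R)
    (g : (Fin n → ℝ) → (Fin n → ℝ)) :
    ∫ x in (fun x => a + R • x) '' K, g x = R ^ n • ∫ x in K, g (a + R • x) := by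
  have h := integral_image_eq_integral_abs_det_fderiv_smul (volume : Measure (Fin n → ℝ)) hKm
    (f := fun x => a + R • x) (f' := fun _ => R • ContinuousLinearMap.id ℝ (Fin n → ℝ))
    (fun x _ => by
      have := ((hasFDerivAt_id (𝕜 := ℝ) x).const_smul R).const_add a
      exact this.hasFDerivWithinAt)
    (by
      intro x _ y _ hxy
      have h1 : R • x = R • y := add_left_cancel hxy
      exact smul_right_injective _ hR.ne' h1)
    g
  rw [h]
  simp_rw [det_smul_id]
  rw [abs_of_pos (by positivity), integral_smul]

theorem volume_homothety (a : Fin n → ℝ) {R : ℝ} (hR : 0 < R) :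
    volume ((fun x => a + R • x) '' K) = ENNReal.ofReal (R ^ n) * volume K := by
  have h1 : (fun x => a + R • x) '' K = (fun x => a + x) '' (R • K) := by
    rw [← image_smul, image_image]
  rw [h1, image_add_left, measure_preimage_add, Measure.addHaar_smul, Module.finrank_fin_fun,
    abs_of_pos (by positivity)]

end Pool.Agent.Lib.Helper13.Ehrhart
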