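import Mathlib
import Pool.Agent.Lib.Helper13.Ehrhart.ConeFinal
import Pool.Agent.Lib.Helper13.Ehrhart.Scale

/-!
# The bound `2ⁿ⁺¹ vol K ≤ binom (3n+2) (n+1)` in the barycentric case
-/

open MeasureTheory Set Filter
open scoped ENNReal Pointwise Topology

namespace Pool.Agent.Lib.Helper13.Ehrhart

variable {n : ℕ} {K : Set (Fin n → ℝ)}

theorem volume_le_eps (hK : IsCompact K) (hc : Convex ℝ K) (h0 : K ∈ 𝓝 (0 : Fin n → ℝ))
    (hbar : ∫ x in K, x = 0) (hfib : volume (Fib K 0) ≤ 1) (ε : ℝ) (hε : 0 < ε) :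
    (((2 * (n + 1)).factorial * (3 * (n + 1)) * (2 ^ (n + 1) * (n + 1) ^ (n + 1)) : ℕ) : ℝ) *
      (((n + 1).factorial : ℝ) * (volume K).toReal)
      ≤ ((n : ℝ) + 1 + ε) ^ (n + 1) * (((3 * (n + 1)).factorial * (2 * (n + 1)) : ℕ) : ℝ) := by
  have hcone := isCone_KC hK hc h0
  have he : ((1, 0) : ℝ × (Fin n → ℝ)) ∈ KC K := one_mem_KC
  obtain ⟨l, hle, hl⟩ := hcone.exists_support he
  have hN : (0 : ℝ) < (n : ℝ) + 1 := by positivity
  set v := V (KC K) (1, 0) with hv
  have hvfin : v ≠ ⊤ := (hcone.finite _).ne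
  let lε : (ℝ × (Fin n → ℝ)) →L[ℝ] ℝ := l + ε • ContinuousLinearMap.fst ℝ ℝ (Fin n → ℝ)
  have hlε : ∀ p, lε p = l p + ε * p.1 := fun p => rfl
  have hpos1 : ∀ p ∈ KC K, 0 < p.1 := by
    intro p hp
    have h1 : gauge K p.2 < p.1 := hp
    exact lt_of_le_of_lt (gauge_nonneg _) h1
  have hlbd : ∀ p ∈ KC K, 0 < lε p ∧
      V (KC K) p ≤ v * ENNReal.ofReal ((lε p / (n + 1)) ^ (n + 1)) := by
    intro p hp
    obtain ⟨h1, h2⟩ := hl p hp
    have h3 := hpos1 p hp
    have h4 : l p ≤ lε p := by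
      rw [hlε]
      have : 0 ≤ ε * p.1 := by positivity
      linarith
    refine ⟨lt_of_lt_of_le h1 h4, ?_⟩
    have h5 : V (KC K) p = ENNReal.ofReal (V (KC K) p).toReal :=
      (ENNReal.ofReal_toReal (hcone.finite p).ne).symm
    rw [h5]
    calc ENNReal.ofReal (V (KC K) p).toReal
        ≤ ENNReal.ofReal (v.toReal * (l p / (n + 1)) ^ (n + 1)) := ENNReal.ofReal_le_ofReal h2
      _ ≤ ENNReal.ofReal (v.toReal * (lε p / (n + 1)) ^ (n + 1)) := by
          refine ENNReal.ofReal_le_ofReal (mul_le_mul_of_nonneg_left ?_ ENNReal.toReal_nonneg)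
          exact pow_le_pow_left₀ (by positivity) (by gcongr) _
      _ = v * ENNReal.ofReal ((lε p / (n + 1)) ^ (n + 1)) := by
          rw [ENNReal.ofReal_mul ENNReal.toReal_nonneg, ENNReal.ofReal_toReal hvfin]
  have hpfin : psi (KC K) lε ≠ ⊤ := psi_lt_top hK hc h0 lε ε hε (fun p hp => by
    rw [hlε]
    have := (hl p hp).1
    linarith)
  have ha : lε (1, 0) = (n : ℝ) + 1 + ε := by
    rw [hlε, hle]; simp
  have hge := psi_ge hK hc h0 hbar lε (fun p hp => (hlbd p hp).1) (by rw [ha]; positivity)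
  have hKpos : 0 < volume K := by
    have h3 : 0 < volume (interior K) :=
      isOpen_interior.measure_pos volume ⟨0, mem_interior_iff_mem_nhds.2 h0⟩
    exact lt_of_lt_of_le h3 (measure_mono interior_subset)
  have hppos : psi (KC K) lε ≠ 0 := by
    intro h1
    rw [h1, mul_zero] at hge
    have h2 : (n.factorial : ℝ≥0∞) * volume K ≠ 0 :=
      mul_ne_zero (factorial_ne_zero' _) hKpos.ne'
    exact h2 (le_antisymm hge bot_le)
  have hmain := hcone.main lε v hlbd hpfin hppos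
  rw [ha] at hge
  have hNv : ((n + 1 : ℕ) : ℝ≥0∞) * v ≤ 1 := by
    rw [hv, V_KC hK hc h0]; exact hfib
  have hfinal : (((2 * (n + 1)).factorial * (3 * (n + 1)) * (2 ^ (n + 1) * (n + 1) ^ (n + 1)) : ℕ) :
      ℝ≥0∞) * (((n + 1).factorial : ℝ≥0∞) * volume K)
      ≤ ENNReal.ofReal (((n : ℝ) + 1 + ε) ^ (n + 1)) *
        (((3 * (n + 1)).factorial * (2 * (n + 1)) : ℕ) : ℝ≥0∞) := by
    set A : ℝ≥0∞ :=
      (((2 * (n + 1)).factorial * (3 * (n + 1)) * (2 ^ (n + 1) * (n + 1) ^ (n + 1)) : ℕ) : ℝ≥0∞)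
      with hA
    set B : ℝ≥0∞ := (((3 * (n + 1)).factorial * (2 * (n + 1)) : ℕ) : ℝ≥0∞) with hB
    set a : ℝ≥0∞ := ENNReal.ofReal (((n : ℝ) + 1 + ε) ^ (n + 1)) with haa
    calc A * (((n + 1).factorial : ℝ≥0∞) * volume K)
        = ((n + 1 : ℕ) : ℝ≥0∞) * (A * ((n.factorial : ℝ≥0∞) * volume K)) := by
          rw [Nat.factorial_succ]; push_cast; ring
      _ ≤ ((n + 1 : ℕ) : ℝ≥0∞) * (A * (a * psi (KC K) lε)) := by gcongr
      _ = ((n + 1 : ℕ) : ℝ≥0∞) * (a * (A * psi (KC K) lε)) := by ring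
      _ ≤ ((n + 1 : ℕ) : ℝ≥0∞) * (a * (B * v)) := by gcongr
      _ = a * B * (((n + 1 : ℕ) : ℝ≥0∞) * v) := by ring
      _ ≤ a * B * 1 := by gcongr
      _ = a * B := mul_one _
  have h1 := ENNReal.toReal_mono
    (ENNReal.mul_ne_top ENNReal.ofReal_ne_top (ENNReal.natCast_ne_top _)) hfinal
  rw [ENNReal.toReal_mul, ENNReal.toReal_mul, ENNReal.toReal_mul, ENNReal.toReal_natCast,
    ENNReal.toReal_natCast, ENNReal.toReal_natCast, ENNReal.toReal_ofReal (by positivity)] at h1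
  exact h1

/-- The barycentric case. -/
theorem volume_le_triple (hK : IsCompact K) (hc : Convex ℝ K) (h0 : K ∈ 𝓝 (0 : Fin n → ℝ))
    (hbar : ∫ x in K, x = 0)
    (hlat : ∀ x ∈ interior K, (∀ i, ∃ z : ℤ, x i = (z : ℝ)) → x = 0) :
    (volume K).toReal ≤ (Nat.choose (3 * n + 2) (n + 1) : ℝ) / 2 ^ (n + 1) := by
  have hfib := volume_Fib_zero_le_one hc h0 hlat
  have hN : (0 : ℝ) < (n : ℝ) + 1 := by positivity
  have hlim : (((2 * (n + 1)).factorial * (3 * (n + 1)) * (2 ^ (n + 1) * (n + 1) ^ (n + 1)) : ℕ) :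
      ℝ) * (((n + 1).factorial : ℝ) * (volume K).toReal)
      ≤ ((n : ℝ) + 1 + 0) ^ (n + 1) * (((3 * (n + 1)).factorial * (2 * (n + 1)) : ℕ) : ℝ) := by
    have hcont : Continuous fun ε : ℝ => ((n : ℝ) + 1 + ε) ^ (n + 1) *
      (((3 * (n + 1)).factorial * (2 * (n + 1)) : ℕ) : ℝ) := by fun_prop
    refine ge_of_tendsto ((hcont.tendsto 0).mono_left (nhdsWithin_le_nhds (s := Ioi (0 : ℝ)))) ?_
    filter_upwards [self_mem_nhdsWithin] with ε hε
    exact volume_le_eps hK hc h0 hbar hfib ε hε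
  rw [add_zero] at hlim
  have hch := Nat.choose_mul_factorial_mul_factorial (show n + 1 ≤ 3 * n + 2 by omega)
  rw [show 3 * n + 2 - (n + 1) = 2 * n + 1 by omega] at hch
  have h3 : (3 * (n + 1)).factorial = 3 * (n + 1) * (3 * n + 2).factorial := by
    rw [show 3 * (n + 1) = (3 * n + 2) + 1 by ring, Nat.factorial_succ]
  have h2 : (2 * (n + 1)).factorial = 2 * (n + 1) * (2 * n + 1).factorial := by
    rw [show 2 * (n + 1) = (2 * n + 1) + 1 by ring, Nat.factorial_succ]
  rw [h3, h2, ← hch] at hlim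
  push_cast at hlim
  set c : ℝ := (Nat.choose (3 * n + 2) (n + 1) : ℝ) with hcdef
  have f1 : (0 : ℝ) < ((n + 1).factorial : ℝ) := by exact_mod_cast Nat.factorial_pos _
  have f2 : (0 : ℝ) < ((2 * n + 1).factorial : ℝ) := by exact_mod_cast Nat.factorial_pos _
  have hP : (0 : ℝ) < 2 * ((n : ℝ) + 1) * ((2 * n + 1).factorial : ℝ) * (3 * ((n : ℝ) + 1)) *
      ((n : ℝ) + 1) ^ (n + 1) * ((n + 1).factorial : ℝ) := by positivity
  rw [le_div_iff₀ (by positivity)]
  refine le_of_mul_le_mul_left ?_ hP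
  calc 2 * ((n : ℝ) + 1) * ((2 * n + 1).factorial : ℝ) * (3 * ((n : ℝ) + 1)) *
      ((n : ℝ) + 1) ^ (n + 1) * ((n + 1).factorial : ℝ) * ((volume K).toReal * 2 ^ (n + 1))
      = 2 * ((n : ℝ) + 1) * ((2 * n + 1).factorial : ℝ) * (3 * ((n : ℝ) + 1)) *
        (2 ^ (n + 1) * ((n : ℝ) + 1) ^ (n + 1)) *
        (((n + 1).factorial : ℝ) * (volume K).toReal) := by ring
    _ ≤ ((n : ℝ) + 1) ^ (n + 1) * (3 * ((n : ℝ) + 1) *
        (c * ((n + 1).factorial : ℝ) * ((2 * n + 1).factorial : ℝ)) * (2 * ((n : ℝ) + 1))) := hlim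
    _ = _ := by ring

/-- Reduction of the general case to the barycentric one. -/
theorem ratio_reduction (n : ℕ) (B : ℝ)
    (hB : ∀ K : Set (Fin n → ℝ), IsCompact K → Convex ℝ K → K ∈ 𝓝 (0 : Fin n → ℝ) →
      ∫ x in K, x = 0 → (∀ x ∈ interior K, (∀ i, ∃ z : ℤ, x i = (z : ℝ)) → x = 0) →
      (volume K).toReal ≤ B)
    (K : Set (Fin n → ℝ)) (hK : IsCompact K) (hc : Convex ℝ K) (hne : (interior K).Nonempty)
    (h0 : (0 : Fin n → ℝ) ∈ interior K)
    (hlat : ∀ x ∈ interior K, (∀ i, ∃ z : ℤ, x i = (z : ℝ)) → x = 0)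
    (b : Fin n → ℝ) (hb : b = (volume K).toReal⁻¹ • (∫ x in K, x))
    (R : ℝ) (hR1 : b = 0 → R = 1)
    (hR2 : ∀ t : ℝ, 0 ≤ t → b ≠ 0 → b - t • b ∈ frontier K →
      R = dist (b - t • b) 0 / dist (b - t • b) b) :
    0 < R ∧ (volume K).toReal ≤ B / R ^ n := by
  have h0' : K ∈ 𝓝 (0 : Fin n → ℝ) := mem_interior_iff_mem_nhds.1 h0
  have hposI : 0 < volume (interior K) := isOpen_interior.measure_pos volume hne
  have hpos : 0 < volume K := lt_of_lt_of_le hposI (measure_mono interior_subset)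
  have hfin : volume K < ⊤ := hK.measure_lt_top
  have hreal : 0 < (volume K).toReal := ENNReal.toReal_pos hpos.ne' hfin.ne
  by_cases hb0 : b = 0
  · have hR := hR1 hb0
    subst hR
    refine ⟨one_pos, ?_⟩
    rw [one_pow, div_one]
    refine hB K hK hc h0' ?_ hlat
    rw [hb0] at hb
    have h1 := hb.symm
    rw [smul_eq_zero] at h1
    rcases h1 with h1 | h1
    · exact absurd h1 (inv_ne_zero hreal.ne')
    · exact h1
  · have hbint : b ∈ interior K := by rw [hb]; exact centroid_mem_interior hK hc hne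
    have hgpos : 0 < gauge K (-b) :=
      (gauge_pos (absorbent_nhds_zero h0') (NormedSpace.isVonNBounded_of_isBounded ℝ hK.isBounded)).2
        (neg_ne_zero.2 hb0)
    set s : ℝ := (gauge K (-b))⁻¹ with hs
    have hspos : 0 < s := by positivity
    set x₀ : Fin n → ℝ := s • (-b) with hx₀
    have hx₀g : gauge K x₀ = 1 := by
      rw [hx₀, gauge_hom s hspos, hs, inv_mul_cancel₀ hgpos.ne']
    have hx₀f : x₀ ∈ frontier K := (gauge_eq_one_iff_mem_frontier hc h0').1 hx₀g
    have hx₀K : x₀ ∈ K := by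
      have := (gauge_le_one_iff_mem_closure hc h0').1 hx₀g.le
      rwa [hK.isClosed.closure_eq] at this
    have e1 : b - (1 + s) • b = x₀ := by
      rw [hx₀, add_smul, one_smul, smul_neg]; abel
    have hnb : 0 < ‖b‖ := norm_pos_iff.2 hb0
    have hRval : R = s / (1 + s) := by
      have h1 := hR2 (1 + s) (by positivity) hb0 (by rw [e1]; exact hx₀f)
      rw [e1] at h1
      rw [h1, dist_zero_right, dist_eq_norm]
      have e2 : x₀ - b = (-(1 + s)) • b := by
        rw [hx₀, neg_smul, add_smul, one_smul, smul_neg]; abel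
      rw [e2, hx₀, norm_smul, norm_smul, norm_neg, norm_neg, Real.norm_of_nonneg hspos.le,
        Real.norm_of_nonneg (by positivity : (0 : ℝ) ≤ 1 + s)]
      field_simp
    have hRpos : 0 < R := by rw [hRval]; positivity
    have hR1' : R < 1 := by rw [hRval, div_lt_one (by positivity)]; linarith
    refine ⟨hRpos, ?_⟩
    set a : Fin n → ℝ := (1 - R) • x₀ with ha
    set K' : Set (Fin n → ℝ) := (fun x => a + R • x) '' K with hK'
    have hab : a + R • b = 0 := by
      rw [ha, hx₀, hRval, smul_smul, smul_neg, ← neg_smul, ← add_smul]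
      have : -((1 - s / (1 + s)) * s) + s / (1 + s) = 0 := by field_simp; ring
      rw [this, zero_smul]
    have hK'c : IsCompact K' := hK.image (by fun_prop)
    have hK'conv : Convex ℝ K' := by
      have h1 : K' = (fun x => a + x) '' (R • K) := by
        rw [hK', ← image_smul, image_image]
      rw [h1]
      exact (hc.smul R).translate a
    have hsub : K' ⊆ K := by
      rintro _ ⟨x, hx, rfl⟩
      show (1 - R) • x₀ + R • x ∈ K
      exact hc hx₀K hx (by linarith) hRpos.le (by ring)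
    have hK'0 : K' ∈ 𝓝 (0 : Fin n → ℝ) := by
      have hK'b : K ∈ 𝓝 b := mem_interior_iff_mem_nhds.1 hbint
      let e : (Fin n → ℝ) ≃ₜ (Fin n → ℝ) :=
        (Homeomorph.smulOfNeZero R hRpos.ne').trans (Homeomorph.addLeft a)
      have h1 : e '' K ∈ 𝓝 (e b) := e.isOpenMap.image_mem_nhds hK'b
      have h2 : e b = 0 := hab
      rw [h2] at h1
      exact h1
    have hbar : ∫ x in K', x = 0 := by
      rw [hK', setIntegral_homothety hK.measurableSet a hRpos (fun x => x)]
      have hi : IntegrableOn (fun x : Fin n → ℝ => R • x) K volume :=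
        (by fun_prop : Continuous fun x : Fin n → ℝ => R • x).continuousOn.integrableOn_compact hK
      have hic : IntegrableOn (fun _ : Fin n → ℝ => a) K volume :=
        continuous_const.continuousOn.integrableOn_compact hK
      rw [integral_add hic hi, integral_const, integral_smul]
      have h3 : ∫ x in K, x = (volume K).toReal • b := by
        rw [hb, smul_smul, mul_inv_cancel₀ hreal.ne', one_smul]
      rw [h3]
      simp only [Measure.real, Measure.restrict_apply MeasurableSet.univ, univ_inter]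
      rw [smul_comm R, ← smul_add, hab, smul_zero, smul_zero]
    have hlat' : ∀ x ∈ interior K', (∀ i, ∃ z : ℤ, x i = (z : ℝ)) → x = 0 :=
      fun x hx hz => hlat x (interior_mono hsub hx) hz
    have hmain := hB K' hK'c hK'conv hK'0 hbar hlat'
    rw [hK', volume_homothety a hRpos, ENNReal.toReal_mul, ENNReal.toReal_ofReal (by positivity)]
      at hmain
    rw [le_div_iff₀ (by positivity), mul_comm]
    exact hmain

end Pool.Agent.Lib.Helper13.Ehrhart
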